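import Pool.Agent.TH907.Bak.Dlog

/-!
A weak form of the theorem on `p`-adic linear forms in logarithms of natural numbers.
-/

namespace Pool.Agent.TH907.Bak

open Finset

theorem eps_linear (k σ s : ℕ) :
    eps k σ s = eps k 0 s + (1 + (k + 1) + (k + 1) ^ 2 + 2 + 2 * (k + 1) ^ 3) * σ := by
  simp only [eps, tau, ell, gro, gam]
  ring

theorem ell_le (k σ s : ℕ) : ell k σ s ≤ 2 ^ σ * ell k 1 s := by
  have h1 : σ ≤ 2 ^ σ := Nat.lt_two_pow_self.le
  have h2 : 1 ≤ 2 ^ σ := Nat.one_le_two_pow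
  have h3 : gam k σ ≤ 2 ^ σ * gam k 1 := by
    simp only [gam]
    nlinarith [Nat.zero_le ((k + 1) ^ 2)]
  have h4 : gro k σ s ≤ 2 ^ σ * gro k 1 s := by
    simp only [gro]
    have h5 : k * gam k σ ≤ k * (2 ^ σ * gam k 1) := Nat.mul_le_mul_left _ h3
    have h6 : s ≤ 2 ^ σ * s := Nat.le_mul_of_pos_left _ (by omega)
    calc 1 + (σ + s) + k * gam k σ ≤ 2 ^ σ + (2 ^ σ + 2 ^ σ * s) + k * (2 ^ σ * gam k 1) := by omega
      _ = _ := by ring
  simp only [ell]
  calc (k + 1) * gro k σ s ≤ (k + 1) * (2 ^ σ * gro k 1 s) := Nat.mul_le_mul_left _ h4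
    _ = _ := by ring

theorem exists_s (a b : ℕ) : ∃ s : ℕ, a + b * s ≤ 2 ^ s := by
  refine ⟨2 * (a + 2 * b + 1), ?_⟩
  have h1 : a + 2 * b + 1 < 2 ^ (a + 2 * b + 1) := Nat.lt_two_pow_self
  set t := a + 2 * b + 1 with ht
  have h2 : t * t ≤ 2 ^ t * 2 ^ t := Nat.mul_le_mul h1.le h1.le
  have h3 : 2 ^ (2 * t) = 2 ^ t * 2 ^ t := by rw [two_mul, pow_add]
  rw [h3]
  refine le_trans ?_ h2
  have h4 : a ≤ a * t := Nat.le_mul_of_pos_right _ (by omega)
  calc a + b * (2 * t) ≤ a * t + 2 * b * t := by nlinarith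
    _ = (a + 2 * b) * t := by ring
    _ ≤ t * t := Nat.mul_le_mul_right _ (by omega)

theorem exists_num (k : ℕ) : ∃ s : ℕ,
    8 * (k + 1) * (4 + (k + 1) * (2 + s + k * ((k + 1) ^ 2 + k + 5))) ≤ 2 ^ s := by
  obtain ⟨s, hs⟩ := exists_s (8 * (k + 1) * (4 + (k + 1) * (2 + k * ((k + 1) ^ 2 + k + 5))))
    (8 * (k + 1) * (k + 1))
  refine ⟨s, le_trans (le_of_eq ?_) hs⟩
  ring

/-- Elimination of one number with the help of a second relation. -/
theorem elim_prod {G : Type*} [DivisionCommMonoid G] {k : ℕ} (g : Fin (k + 1) → G)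
    (b c : Fin (k + 1) → ℤ) (j : Fin (k + 1))
    (hz : g j ^ (b j * c j - c j * b j) = 1)
    (hg : ∀ i, g i ^ (b i * c j - c i * b j) = (g i ^ b i) ^ c j * ((g i ^ c i) ^ b j)⁻¹) :
    ∏ i : Fin k, g (j.succAbove i) ^ (b (j.succAbove i) * c j - c (j.succAbove i) * b j)
      = (∏ i, g i ^ b i) ^ c j * ((∏ i, g i ^ c i) ^ b j)⁻¹ := by
  have h1 := Fin.prod_univ_succAbove (fun i => g i ^ (b i * c j - c i * b j)) j
  simp only [hz, one_mul] at h1
  rw [← h1, Finset.prod_congr rfl (fun i _ => hg i), Finset.prod_mul_distrib,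
    Finset.prod_zpow, Finset.prod_inv_distrib, Finset.prod_zpow]

theorem cast_omega {p : ℕ} [hp : Fact p.Prime] {E M : ℕ} (hEM : E ≤ M) {α a : ℕ} {w : ℤ_[p]}
    (h : (α : ZMod (p ^ M)) = (PadicInt.toZModPow M w) ^ a) :
    (α : ZMod (p ^ E)) = (PadicInt.toZModPow E w) ^ a := by
  have hd : p ^ E ∣ p ^ M := pow_dvd_pow _ hEM
  have h1 := congrArg (ZMod.castHom hd (ZMod (p ^ E))) h
  rw [map_natCast, map_pow] at h1
  rw [h1]
  congr 1
  have := PadicInt.zmod_cast_comp_toZModPow (p := p) E M hEM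
  exact RingHom.congr_fun this w

/-- The statement of the weak theorem for numbers congruent to `1` modulo `p`. -/
def WB1 (n : ℕ) : Prop :=
  ∃ C κ : ℕ, ∀ (p : ℕ) [Fact p.Prime], p ≠ 2 → ∀ S : ℕ, 1 ≤ S →
    ∀ (α : Fin n → ℕ) (b : Fin n → ℤ) (M : ℕ) (u : Fin n → (ZMod (p ^ M))ˣ),
      (∀ i, (u i : ZMod (p ^ M)) = α i) → (∀ i, 0 < α i) → (∀ i, α i ≡ 1 [MOD p]) →
      (∀ i, α i ≤ 2 ^ S) → (∀ i, |b i| ≤ 2 ^ S) → ∏ i, (α i : ℚ) ^ (b i) ≠ 1 →
      ∏ i, (u i) ^ (b i) = 1 → M ≤ C * S ^ κ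

theorem wb1_zero : WB1 0 := by
  refine ⟨0, 0, ?_⟩
  intro p _ _ S _ α b M u _ _ _ _ _ h _
  simp at h

/-- injective case -/
theorem inj_case {p : ℕ} [hp : Fact p.Prime] (hp2 : p ≠ 2) {k s σ : ℕ}
    (hs : 8 * (k + 1) * (4 + (k + 1) * (2 + s + k * ((k + 1) ^ 2 + k + 5))) ≤ 2 ^ s)
    (α : Fin (k + 1) → ℕ) (b : Fin (k + 1) → ℤ) (M : ℕ) (u : Fin (k + 1) → (ZMod (p ^ M))ˣ)
    (hu : ∀ i, (u i : ZMod (p ^ M)) = α i) (hα0 : ∀ i, 0 < α i) (hα1 : ∀ i, α i ≡ 1 [MOD p])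
    (hα : ∀ i, α i ≤ 2 ^ (2 ^ σ)) (hb : ∀ i, |b i| ≤ 2 ^ (2 ^ σ))
    (hb0 : ∃ i, b i ≠ 0) (hrel : ∏ i, (u i) ^ (b i) = 1)
    (hinj : Function.Injective
      (fun l : Fin (k + 1) → Fin (2 ^ ell k σ s) => ∏ i, α i ^ (l i : ℕ))) :
    M ≤ 2 ^ eps k σ s + 2 ^ σ := by
  classical
  -- the power of `p` in `b`
  have hex : ∃ e : ℕ, ∃ i, ¬ (p : ℤ) ^ (e + 1) ∣ b i := by
    obtain ⟨i, hi⟩ := hb0
    refine ⟨(b i).natAbs, i, ?_⟩
    intro hd
    have h1 : p ^ ((b i).natAbs + 1) ∣ (b i).natAbs := by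
      have := Int.natAbs_dvd_natAbs.2 hd
      simpa [Int.natAbs_pow] using this
    have h2 := Nat.le_of_dvd (Int.natAbs_pos.2 hi) h1
    have h3 : (b i).natAbs + 1 < p ^ ((b i).natAbs + 1) := Nat.lt_pow_self hp.out.one_lt
    omega
  set e := Nat.find hex with he
  obtain ⟨i0, hi0⟩ := Nat.find_spec hex
  have hall : ∀ i, (p : ℤ) ^ e ∣ b i := by
    intro i
    rcases Nat.eq_zero_or_pos e with h0 | h0
    · rw [h0, pow_zero]; exact one_dvd _
    · have h1 := Nat.find_min hex (m := e - 1) (by omega)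
      push Not at h1
      have h2 := h1 i
      rwa [Nat.sub_add_cancel h0] at h2
  choose b' hb' using hall
  have heS : e ≤ 2 ^ σ := by
    obtain ⟨i, hi⟩ := hb0
    have h1 : (p : ℤ) ^ e ≤ |b i| :=
      Int.le_of_dvd (abs_pos.2 hi) ((dvd_abs _ _).2 ⟨b' i, hb' i⟩)
    have h2 : (2 : ℤ) ^ e ≤ (p : ℤ) ^ e :=
      pow_le_pow_left₀ (by norm_num) (by exact_mod_cast hp.out.two_le) _
    have h3 : (2 : ℤ) ^ e ≤ 2 ^ (2 ^ σ) := h2.trans (h1.trans (hb i))
    exact (pow_le_pow_iff_right₀ (by norm_num : (1 : ℤ) < 2)).1 h3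
  have hb'0 : ¬ (p : ℤ) ∣ b' i0 := by
    intro hd
    apply hi0
    rw [hb' i0, pow_succ]
    exact mul_dvd_mul_left _ hd
  have hb'b : ∀ i, |b' i| ≤ 2 ^ (2 ^ σ) := by
    intro i
    refine le_trans ?_ (hb i)
    rw [hb' i, abs_mul]
    apply le_mul_of_one_le_left (abs_nonneg _)
    have : (1 : ℤ) ≤ (p : ℤ) ^ e := one_le_pow₀ (by exact_mod_cast hp.out.one_lt.le)
    exact this.trans (le_abs_self _)
  by_contra hM
  push Not at hM
  have hpos1 : 0 < 2 ^ eps k σ s := by positivity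
  have hpos2 : 0 < 2 ^ σ := by positivity
  obtain ⟨E', rfl⟩ : ∃ E', M = E' + 1 := ⟨M - 1, by omega⟩
  set K := 2 * (E' + 1) with hK
  have hK2 : 2 ≤ K := by omega
  choose a ha using fun i => exists_dlog (p := p) hp2 hK2 E' (hα1 i)
  have hrel' := rel_dlog (p := p) hp2 hK2 u a b (fun i => by rw [hu i]; exact ha i) hrel
  have hsum : ∑ i, b i * (a i : ℤ) = (p : ℤ) ^ e * ∑ i, b' i * (a i : ℤ) := by
    rw [Finset.mul_sum]
    apply Finset.sum_congr rfl
    intro i _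
    rw [hb' i]; ring
  set E := E' - e with hE
  have hEe : E' = E + e := by omega
  have hrel2 : (p : ℤ) ^ E ∣ ∑ i, b' i * (a i : ℤ) := by
    rw [hsum] at hrel'
    have h5 : (p : ℤ) ^ E' = (p : ℤ) ^ e * (p : ℤ) ^ E := by rw [← pow_add]; congr 1; omega
    rw [h5] at hrel'
    exact (mul_dvd_mul_iff_left (pow_ne_zero e (by exact_mod_cast hp.out.ne_zero))).1 hrel'
  set τ : Equiv.Perm (Fin (k + 1)) := Equiv.swap 0 i0 with hτ
  have hτ0 : τ 0 = i0 := Equiv.swap_apply_left _ _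
  refine core (p := p) hp2 (k := k) (σ := σ) (s := s) (K := K) (E := E) hs (by omega) (by omega)
    (fun i => α (τ i)) (fun i => a (τ i)) (fun i => b' (τ i)) (fun i => hα0 _) (fun i => hα _)
    (fun i => hb'b _) (by rw [hτ0]; exact hb'0) ?_ ?_ ?_
  · intro i
    exact cast_omega (by omega) (ha (τ i))
  · rw [Equiv.sum_comp τ (fun i => b' i * (a i : ℤ))]
    exact hrel2
  · intro l l' h
    simp only at h
    have h1 : ∀ m : Fin (k + 1) → Fin (2 ^ ell k σ s),
        ∏ i, α (τ i) ^ (m i : ℕ) = ∏ i, α i ^ ((m (τ.symm i) : ℕ)) := by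
      intro m
      rw [← Equiv.prod_comp τ (fun i => α i ^ ((m (τ.symm i) : ℕ)))]
      apply Finset.prod_congr rfl
      intro i _
      rw [Equiv.symm_apply_apply]
    rw [h1, h1] at h
    have h2 := hinj h
    funext i
    have h3 := congrFun h2 (τ i)
    simpa using h3

theorem wb1_succ (k : ℕ) (ih : WB1 k) : WB1 (k + 1) := by
  classical
  obtain ⟨C₀, κ₀, hC₀⟩ := ih
  obtain ⟨s, hs⟩ := exists_num k
  set κ₁ := (1 + (k + 1) + (k + 1) ^ 2 + 2 + 2 * (k + 1) ^ 3) with hκ₁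
  set D := 2 + 2 * ell k 1 s with hD
  refine ⟨C₀ * D ^ κ₀ + (2 ^ eps k 0 s * 2 ^ κ₁ + 2), κ₀ + κ₁, ?_⟩
  intro p hp hp2 S hS α b M u hu hα0 hα1 hα hb hne hrel
  -- choose `σ`
  obtain ⟨σ, hσ1, hσ2⟩ : ∃ σ, S ≤ 2 ^ σ ∧ 2 ^ σ ≤ 2 * S := by
    refine ⟨Nat.clog 2 S, Nat.le_pow_clog (by norm_num) _, ?_⟩
    rcases Nat.lt_or_ge 1 S with h1 | h1
    · have h2 := Nat.pow_pred_clog_lt_self (b := 2) (by norm_num) h1
      have h3 : 0 < Nat.clog 2 S := Nat.clog_pos (by norm_num) h1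
      have h4 : 2 ^ Nat.clog 2 S = 2 * 2 ^ (Nat.clog 2 S).pred := by
        rw [← pow_succ']
        exact congrArg (fun t => 2 ^ t) (Nat.succ_pred_eq_of_pos h3).symm
      omega
    · have : S = 1 := by omega
      subst this
      simp
  have hb0 : ∃ i, b i ≠ 0 := by
    by_contra hcon
    push Not at hcon
    apply hne
    apply Finset.prod_eq_one
    intro i _
    rw [hcon i, zpow_zero]
  have hαS : ∀ i, α i ≤ 2 ^ (2 ^ σ) := fun i =>
    (hα i).trans (Nat.pow_le_pow_right (by norm_num) hσ1)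
  have hbS : ∀ i, |b i| ≤ 2 ^ (2 ^ σ) := fun i =>
    (hb i).trans (pow_le_pow_right₀ (by norm_num) hσ1)
  have hSpow1 : S ^ κ₀ ≤ S ^ (κ₀ + κ₁) := Nat.pow_le_pow_right hS (by omega)
  have hSpow2 : S ^ κ₁ ≤ S ^ (κ₀ + κ₁) := Nat.pow_le_pow_right hS (by omega)
  have hSpow3 : S ≤ S ^ (κ₀ + κ₁) := by
    calc S = S ^ 1 := (pow_one S).symm
      _ ≤ _ := Nat.pow_le_pow_right hS (by rw [hκ₁]; omega)
  by_cases hinj : Function.Injective
      (fun l : Fin (k + 1) → Fin (2 ^ ell k σ s) => ∏ i, α i ^ (l i : ℕ))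
  · have h1 := inj_case (p := p) hp2 hs α b M u hu hα0 hα1 hαS hbS hb0 hrel hinj
    have h2 : 2 ^ eps k σ s ≤ 2 ^ eps k 0 s * 2 ^ κ₁ * S ^ κ₁ := by
      rw [eps_linear, pow_add, mul_assoc, ← mul_pow, mul_comm _ σ, pow_mul]
      exact Nat.mul_le_mul_left _ (Nat.pow_le_pow_left hσ2 _)
    calc M ≤ 2 ^ eps k σ s + 2 ^ σ := h1
      _ ≤ 2 ^ eps k 0 s * 2 ^ κ₁ * S ^ κ₁ + 2 * S := Nat.add_le_add h2 hσ2
      _ ≤ 2 ^ eps k 0 s * 2 ^ κ₁ * S ^ (κ₀ + κ₁) + 2 * S ^ (κ₀ + κ₁) :=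
          Nat.add_le_add (Nat.mul_le_mul_left _ hSpow2) (Nat.mul_le_mul_left _ hSpow3)
      _ = (2 ^ eps k 0 s * 2 ^ κ₁ + 2) * S ^ (κ₀ + κ₁) := by ring
      _ ≤ _ := Nat.mul_le_mul_right _ (by omega)
  · -- a second relation
    rw [Function.Injective] at hinj
    push Not at hinj
    obtain ⟨l, l', hll, hlne⟩ := hinj
    set c : Fin (k + 1) → ℤ := fun i => ((l i : ℕ) : ℤ) - ((l' i : ℕ) : ℤ) with hc
    obtain ⟨j, hj⟩ : ∃ j, c j ≠ 0 := by
      by_contra hcon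
      push Not at hcon
      apply hlne
      funext i
      have := hcon i
      rw [hc] at this
      simp only [sub_eq_zero] at this
      exact Fin.ext (by exact_mod_cast this)
    have hcb : ∀ i, |c i| ≤ 2 ^ ell k σ s := by
      intro i
      have h1 := (l i).2
      have h2 := (l' i).2
      have h3 : ((l i : ℕ) : ℤ) < 2 ^ ell k σ s := by exact_mod_cast h1
      have h4 : ((l' i : ℕ) : ℤ) < 2 ^ ell k σ s := by exact_mod_cast h2
      rw [hc, abs_le]
      constructor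
      · have : (0 : ℤ) ≤ ((l i : ℕ) : ℤ) := by positivity
        simp only
        linarith
      · have : (0 : ℤ) ≤ ((l' i : ℕ) : ℤ) := by positivity
        simp only
        linarith
    have hαq : ∀ i, (α i : ℚ) ≠ 0 := fun i => by exact_mod_cast (hα0 i).ne'
    -- rational relation
    have hψc : ∏ i, (α i : ℚ) ^ (c i) = 1 := by
      have h1 : ∀ i ∈ (univ : Finset (Fin (k + 1))), (α i : ℚ) ^ (c i)
          = (α i : ℚ) ^ (l i : ℕ) / (α i : ℚ) ^ (l' i : ℕ) := by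
        intro i _
        rw [hc]
        simp only
        rw [zpow_sub₀ (hαq i), zpow_natCast, zpow_natCast]
      rw [Finset.prod_congr rfl h1, Finset.prod_div_distrib]
      have h2 : (∏ i, (α i : ℚ) ^ (l i : ℕ)) = ∏ i, (α i : ℚ) ^ (l' i : ℕ) := by
        exact_mod_cast congrArg (Nat.cast (R := ℚ)) hll
      rw [h2]
      apply div_self
      exact Finset.prod_ne_zero_iff.2 fun i _ => pow_ne_zero _ (hαq i)
    have hφc : ∏ i, (u i) ^ (c i) = 1 := by
      have h1 : ∀ i ∈ (univ : Finset (Fin (k + 1))), (u i) ^ (c i)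
          = (u i) ^ (l i : ℕ) / (u i) ^ (l' i : ℕ) := by
        intro i _
        rw [hc]
        simp only
        rw [zpow_sub, zpow_natCast, zpow_natCast, div_eq_mul_inv]
      rw [Finset.prod_congr rfl h1, Finset.prod_div_distrib, div_eq_one]
      apply Units.ext
      rw [Units.coe_prod, Units.coe_prod]
      have h2 : (∏ i, (α i : ZMod (p ^ M)) ^ (l i : ℕ)) = ∏ i, (α i : ZMod (p ^ M)) ^ (l' i : ℕ) := by
        exact_mod_cast congrArg (Nat.cast (R := ZMod (p ^ M))) hll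
      calc ∏ i, (((u i) ^ (l i : ℕ) : (ZMod (p ^ M))ˣ) : ZMod (p ^ M))
          = ∏ i, (α i : ZMod (p ^ M)) ^ (l i : ℕ) := by
            apply Finset.prod_congr rfl
            intro i _
            rw [Units.val_pow_eq_pow_val, hu i]
        _ = ∏ i, (α i : ZMod (p ^ M)) ^ (l' i : ℕ) := h2
        _ = _ := by
            apply Finset.prod_congr rfl
            intro i _
            rw [Units.val_pow_eq_pow_val, hu i]
    set S' := S + ell k σ s + 1 with hS'
    have hb'' : ∀ i : Fin k, |b (j.succAbove i) * c j - c (j.succAbove i) * b j| ≤ 2 ^ S' := by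
      intro i
      calc |b (j.succAbove i) * c j - c (j.succAbove i) * b j|
          ≤ |b (j.succAbove i) * c j| + |c (j.succAbove i) * b j| := abs_sub _ _
        _ ≤ 2 ^ S * 2 ^ ell k σ s + 2 ^ ell k σ s * 2 ^ S := by
            rw [abs_mul, abs_mul]
            apply add_le_add
            · exact mul_le_mul (hb _) (hcb _) (abs_nonneg _) (by positivity)
            · exact mul_le_mul (hcb _) (hb _) (abs_nonneg _) (by positivity)
        _ = 2 ^ S' := by rw [hS', pow_add, pow_add]; ring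
    have happ := hC₀ p hp2 S' (by omega) (fun i => α (j.succAbove i))
      (fun i => b (j.succAbove i) * c j - c (j.succAbove i) * b j) M (fun i => u (j.succAbove i))
      (fun i => hu _) (fun i => hα0 _) (fun i => hα1 _)
      (fun i => (hα _).trans (Nat.pow_le_pow_right (by norm_num) (by omega))) hb''
      (by
        rw [elim_prod (fun i => (α i : ℚ)) b c j]
        · rw [hψc, one_zpow, inv_one, mul_one]
          intro h
          apply hne
          have hpos : 0 < ∏ i, (α i : ℚ) ^ (b i) :=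
            Finset.prod_pos fun i _ => zpow_pos (by exact_mod_cast hα0 i) _
          by_contra hne1
          exact hj ((zpow_eq_one_iff_right₀ hpos.le hne1).1 h)
        · have : b j * c j - c j * b j = 0 := by ring
          rw [this, zpow_zero]
        · intro i
          rw [zpow_sub₀ (hαq i), zpow_mul, zpow_mul, div_eq_mul_inv])
      (by
        rw [elim_prod (fun i => u i) b c j]
        · rw [hφc, hrel, one_zpow, one_zpow, inv_one, mul_one]
        · have : b j * c j - c j * b j = 0 := by ring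
          rw [this, zpow_zero]
        · intro i
          rw [zpow_sub, zpow_mul, zpow_mul])
    have hS'le : S' ≤ D * S := by
      have h1 := ell_le k σ s
      have h2 : 2 ^ σ * ell k 1 s ≤ 2 * S * ell k 1 s := Nat.mul_le_mul_right _ hσ2
      rw [hS', hD]
      calc S + ell k σ s + 1 ≤ S + 2 * S * ell k 1 s + S := by omega
        _ = _ := by ring
    calc M ≤ C₀ * S' ^ κ₀ := happ
      _ ≤ C₀ * (D * S) ^ κ₀ := Nat.mul_le_mul_left _ (Nat.pow_le_pow_left hS'le _)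
      _ = C₀ * D ^ κ₀ * S ^ κ₀ := by rw [mul_pow]; ring
      _ ≤ C₀ * D ^ κ₀ * S ^ (κ₀ + κ₁) := Nat.mul_le_mul_left _ hSpow1
      _ ≤ _ := Nat.mul_le_mul_right _ (by omega)

theorem wb1 (n : ℕ) : WB1 n := by
  induction n with
  | zero => exact wb1_zero
  | succ k ih => exact wb1_succ k ih

/-- **Weak theorem on `p`-adic linear forms in logarithms**: if `p ≤ S` is an odd prime, the
natural numbers `α i` are prime to `p` and at most `2^S`, the integers `b i` are at most `2^S` in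
absolute value, and `∏ α i ^ b i` is not `1` but congruent to `1` modulo `p^M`, then
`M ≤ C * S^κ`, where `C` and `κ` depend only on the number of the `α i`. -/
theorem weakBaker (n : ℕ) : ∃ C κ : ℕ, ∀ (p : ℕ) [Fact p.Prime], p ≠ 2 → ∀ S : ℕ, p ≤ S →
    ∀ (α : Fin n → ℕ) (b : Fin n → ℤ) (M : ℕ) (u : Fin n → (ZMod (p ^ M))ˣ),
      (∀ i, (u i : ZMod (p ^ M)) = α i) → (∀ i, 0 < α i) →
      (∀ i, α i ≤ 2 ^ S) → (∀ i, |b i| ≤ 2 ^ S) → ∏ i, (α i : ℚ) ^ (b i) ≠ 1 →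
      ∏ i, (u i) ^ (b i) = 1 → M ≤ C * S ^ κ := by
  obtain ⟨C, κ, hC⟩ := wb1 n
  refine ⟨C, 2 * κ, ?_⟩
  intro p hp hp2 S hpS α b M u hu hα0 hα hb hne hrel
  rcases Nat.eq_zero_or_pos M with hM | hM
  · rw [hM]; exact Nat.zero_le _
  have hS1 : 1 ≤ S := hp.out.one_lt.le.trans hpS
  have hnd : ∀ i, ¬ p ∣ α i := by
    intro i hd
    have h1 : IsUnit ((α i : ℕ) : ZMod (p ^ M)) := by rw [← hu i]; exact (u i).isUnit
    rw [ZMod.isUnit_iff_coprime] at h1
    have h2 : p ∣ p ^ M := dvd_pow_self _ hM.ne'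
    have h3 := Nat.dvd_gcd hd h2
    rw [h1] at h3
    exact hp.out.one_lt.ne' (Nat.dvd_one.1 h3)
  have hSS : S ≤ S ^ 2 := by nlinarith
  have h := hC p hp2 (S ^ 2) (by nlinarith) (fun i => α i ^ (p - 1)) b M
    (fun i => u i ^ (p - 1))
    (fun i => by rw [Units.val_pow_eq_pow_val, hu i]; push_cast; rfl)
    (fun i => pow_pos (hα0 i) _)
    (fun i => by
      rw [← ZMod.natCast_eq_natCast_iff]
      push_cast
      apply ZMod.pow_card_sub_one_eq_one
      intro h0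
      exact hnd i ((ZMod.natCast_eq_zero_iff _ _).1 h0))
    (fun i => by
      calc α i ^ (p - 1) ≤ (2 ^ S) ^ (p - 1) := Nat.pow_le_pow_left (hα i) _
        _ ≤ (2 ^ S) ^ S := Nat.pow_le_pow_right (by positivity) (by omega)
        _ = 2 ^ (S ^ 2) := by rw [← pow_mul, sq])
    (fun i => (hb i).trans (pow_le_pow_right₀ (by norm_num) hSS))
    (by
      intro h1
      apply hne
      have h2 : (∏ i, (α i : ℚ) ^ (b i)) ^ (p - 1) = 1 := by
        rw [← h1, ← Finset.prod_pow]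
        apply Finset.prod_congr rfl
        intro i _
        push_cast
        rw [← zpow_natCast, ← zpow_natCast, ← zpow_mul, ← zpow_mul, mul_comm]
      have hpos : 0 < ∏ i, (α i : ℚ) ^ (b i) :=
        Finset.prod_pos fun i _ => zpow_pos (by exact_mod_cast hα0 i) _
      have hp1 : p - 1 ≠ 0 := by
        have := hp.out.two_le
        omega
      exact (pow_eq_one_iff_of_nonneg hpos.le hp1).1 h2)
    (by
      have h2 : (∏ i, (u i) ^ (b i)) ^ (p - 1) = 1 := by rw [hrel, one_pow]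
      rw [← h2, ← Finset.prod_pow]
      apply Finset.prod_congr rfl
      intro i _
      rw [← zpow_natCast, ← zpow_natCast, ← zpow_mul, ← zpow_mul, mul_comm])
  calc M ≤ C * (S ^ 2) ^ κ := h
    _ = _ := by rw [← pow_mul]

end Pool.Agent.TH907.Bak
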