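import Pool.Agent.TH907.Bak.Siegel

/-!
Parameters and the core non-existence statement.
-/

namespace Pool.Agent.TH907.Bak

open Finset

/-- parameter -/
def gam (k σ : ℕ) : ℕ := (k + 1) ^ 2 + σ + k + 4
/-- parameter: `log₂` of the growth factor -/
def gro (k σ s : ℕ) : ℕ := 1 + (σ + s) + k * gam k σ
/-- parameter: `log₂` of the box size -/
def ell (k σ s : ℕ) : ℕ := (k + 1) * gro k σ s
/-- parameter: `log₂` of the initial order -/
def tau (k σ s : ℕ) : ℕ := gam k σ + gro k σ s + ell k σ s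
/-- parameter: `log₂` of the final precision -/
def eps (k σ s : ℕ) : ℕ := 1 + tau k σ s + 2 * (σ + s + (k + 1) ^ 2 * gro k σ s)

theorem num1 {k σ s : ℕ} (hs : 8 * (k + 1) * (4 + (k + 1) * (2 + s + k * ((k + 1) ^ 2 + k + 5))) ≤ 2 ^ s) :
    8 * ((k + 1) * (2 ^ σ + ell k σ s + 3)) ≤ 2 ^ (σ + s) := by
  have h1 : σ ≤ 2 ^ σ := Nat.lt_two_pow_self.le
  have h2 : 1 ≤ 2 ^ σ := Nat.one_le_two_pow
  have h3 : gam k σ ≤ 2 ^ σ * ((k + 1) ^ 2 + k + 5) := by
    rw [gam]
    nlinarith [Nat.zero_le ((k + 1) ^ 2)]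
  have h4 : gro k σ s ≤ 2 ^ σ * (2 + s + k * ((k + 1) ^ 2 + k + 5)) := by
    rw [gro]
    have h5 : k * gam k σ ≤ k * (2 ^ σ * ((k + 1) ^ 2 + k + 5)) := Nat.mul_le_mul_left _ h3
    have h6 : s ≤ 2 ^ σ * s := Nat.le_mul_of_pos_left _ (by omega)
    calc 1 + (σ + s) + k * gam k σ
        ≤ 2 ^ σ + (2 ^ σ + 2 ^ σ * s) + k * (2 ^ σ * ((k + 1) ^ 2 + k + 5)) := by omega
      _ = _ := by ring
  have h7 : ell k σ s ≤ 2 ^ σ * ((k + 1) * (2 + s + k * ((k + 1) ^ 2 + k + 5))) := by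
    rw [ell]
    calc (k + 1) * gro k σ s ≤ (k + 1) * (2 ^ σ * (2 + s + k * ((k + 1) ^ 2 + k + 5))) :=
          Nat.mul_le_mul_left _ h4
      _ = _ := by ring
  have h8 : 2 ^ σ + ell k σ s + 3 ≤ 2 ^ σ * (4 + (k + 1) * (2 + s + k * ((k + 1) ^ 2 + k + 5))) := by
    rw [mul_add]
    omega
  calc 8 * ((k + 1) * (2 ^ σ + ell k σ s + 3))
      ≤ 8 * ((k + 1) * (2 ^ σ * (4 + (k + 1) * (2 + s + k * ((k + 1) ^ 2 + k + 5))))) :=
        Nat.mul_le_mul_left _ (Nat.mul_le_mul_left _ h8)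
    _ = 2 ^ σ * (8 * (k + 1) * (4 + (k + 1) * (2 + s + k * ((k + 1) ^ 2 + k + 5)))) := by ring
    _ ≤ 2 ^ σ * 2 ^ s := Nat.mul_le_mul_left _ hs
    _ = _ := by rw [pow_add]

theorem num2 (k σ s : ℕ) : ell k σ s * (k + 1) = k * tau k σ s + (σ + s) + 1 := by
  rw [tau, ell, gro]
  ring

theorem ell_le_tau (k σ s : ℕ) : ell k σ s ≤ tau k σ s := by
  rw [tau]; omega

/-- the size condition in each step -/
theorem num3 {k σ s : ℕ} (hs : 8 * (k + 1) * (4 + (k + 1) * (2 + s + k * ((k + 1) ^ 2 + k + 5))) ≤ 2 ^ s)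
    {J r : ℕ} (hJ : J + r + 1 = (k + 1) ^ 2) {t : ℕ} (ht : tau k σ s = t + (k + 1) ^ 2) {z : ℕ}
    (hz : σ + s = z + 1) :
    ell k σ s * (k + 1) + (ell k σ s * (k + 1) + (2 ^ σ + ell k σ s + 1) * (k * 2 ^ tau k σ s)
        + 2 ^ σ * (k + 1) * 2 ^ ell k σ s * 2 ^ (σ + s))
      + (2 ^ σ + ell k σ s + 1) * 2 ^ (t + r)
      + 2 ^ σ * (k + 1) * 2 ^ ell k σ s * 2 ^ (σ + s + (J + 1) * gro k σ s)
      ≤ 2 ^ (t + r + z + J * gro k σ s) := by
  have h1 := num1 (σ := σ) hs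
  have hlt := ell_le_tau k σ s
  have hl2 : ell k σ s ≤ 2 ^ tau k σ s := hlt.trans Nat.lt_two_pow_self.le
  have hg1 : 1 ≤ gro k σ s := by rw [gro]; omega
  have hz3 : 8 ≤ 2 ^ (σ + s) := by
    have : 1 ≤ (k + 1) * (2 ^ σ + ell k σ s + 3) := Nat.mul_pos (by omega) (by positivity)
    omega
  have hz4 : 3 ≤ σ + s := by
    by_contra hcon
    have : σ + s ≤ 2 := by omega
    have := Nat.pow_le_pow_right (show 0 < 2 by norm_num) this
    omega
  have hJg : J ≤ J * gro k σ s := Nat.le_mul_of_pos_right _ hg1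
  -- first half
  have hA : ell k σ s * (k + 1) + ell k σ s * (k + 1)
      + (2 ^ σ + ell k σ s + 1) * (k * 2 ^ tau k σ s) + (2 ^ σ + ell k σ s + 1) * 2 ^ (t + r)
      ≤ 2 ^ (t + r + z + J * gro k σ s - 1) := by
    have h2 : 2 ^ (t + r) ≤ 2 ^ tau k σ s := Nat.pow_le_pow_right (by norm_num) (by omega)
    have h3 : (2 ^ σ + ell k σ s + 1) * 2 ^ (t + r) ≤ (2 ^ σ + ell k σ s + 1) * 2 ^ tau k σ s :=
      Nat.mul_le_mul_left _ h2
    have h4 : ell k σ s * (k + 1) ≤ 2 ^ tau k σ s * (k + 1) := Nat.mul_le_mul_right _ hl2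
    have h5 : ell k σ s * (k + 1) + ell k σ s * (k + 1)
      + (2 ^ σ + ell k σ s + 1) * (k * 2 ^ tau k σ s) + (2 ^ σ + ell k σ s + 1) * 2 ^ (t + r)
      ≤ ((k + 1) * (2 ^ σ + ell k σ s + 3)) * 2 ^ tau k σ s := by
      calc _ ≤ 2 ^ tau k σ s * (k + 1) + 2 ^ tau k σ s * (k + 1)
              + (2 ^ σ + ell k σ s + 1) * (k * 2 ^ tau k σ s)
              + (2 ^ σ + ell k σ s + 1) * 2 ^ tau k σ s := by omega
        _ = _ := by ring
    have h6 : 8 * (((k + 1) * (2 ^ σ + ell k σ s + 3)) * 2 ^ tau k σ s)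
        ≤ 2 ^ (σ + s) * 2 ^ tau k σ s := by
      rw [← mul_assoc]
      exact Nat.mul_le_mul_right _ h1
    have h7 : 2 ^ (σ + s) * 2 ^ tau k σ s = 8 * 2 ^ (σ + s - 3 + tau k σ s) := by
      rw [← pow_add, show (8 : ℕ) = 2 ^ 3 by norm_num, ← pow_add]
      congr 1
      omega
    have h8 : 2 ^ (σ + s - 3 + tau k σ s) ≤ 2 ^ (t + r + z + J * gro k σ s - 1) :=
      Nat.pow_le_pow_right (by norm_num) (by omega)
    omega
  -- second half
  have hB : 2 ^ σ * (k + 1) * 2 ^ ell k σ s * 2 ^ (σ + s)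
      + 2 ^ σ * (k + 1) * 2 ^ ell k σ s * 2 ^ (σ + s + (J + 1) * gro k σ s)
      ≤ 2 ^ (t + r + z + J * gro k σ s - 1) := by
    have h2 : 2 ^ (σ + s) ≤ 2 ^ (σ + s + (J + 1) * gro k σ s) :=
      Nat.pow_le_pow_right (by norm_num) (by omega)
    have h3 : k + 1 ≤ 2 ^ k := Nat.lt_two_pow_self
    have h4 : 2 ^ σ * (k + 1) * 2 ^ ell k σ s ≤ 2 ^ σ * 2 ^ k * 2 ^ ell k σ s :=
      Nat.mul_le_mul_right _ (Nat.mul_le_mul_left _ h3)
    calc 2 ^ σ * (k + 1) * 2 ^ ell k σ s * 2 ^ (σ + s)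
          + 2 ^ σ * (k + 1) * 2 ^ ell k σ s * 2 ^ (σ + s + (J + 1) * gro k σ s)
        ≤ (2 ^ σ * 2 ^ k * 2 ^ ell k σ s) * 2 ^ (σ + s + (J + 1) * gro k σ s)
          + (2 ^ σ * 2 ^ k * 2 ^ ell k σ s) * 2 ^ (σ + s + (J + 1) * gro k σ s) :=
          Nat.add_le_add (Nat.mul_le_mul h4 h2) (Nat.mul_le_mul_right _ h4)
      _ = 2 ^ (1 + σ + k + ell k σ s + (σ + s + (J + 1) * gro k σ s)) := by
          simp only [pow_add]; ring
      _ ≤ 2 ^ (t + r + z + J * gro k σ s - 1) := by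
          apply Nat.pow_le_pow_right (by norm_num)
          have h5 : (J + 1) * gro k σ s = J * gro k σ s + gro k σ s := by ring
          have h6 : tau k σ s = gam k σ + gro k σ s + ell k σ s := rfl
          have h7 : gam k σ = (k + 1) ^ 2 + σ + k + 4 := rfl
          omega
  have hC : 2 ^ (t + r + z + J * gro k σ s) = 2 ^ (t + r + z + J * gro k σ s - 1)
      + 2 ^ (t + r + z + J * gro k σ s - 1) := by
    have : t + r + z + J * gro k σ s = (t + r + z + J * gro k σ s - 1) + 1 := by omega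
    conv_lhs => rw [this, pow_succ]
    ring
  rw [hC]
  omega

variable {p : ℕ} [hp : Fact p.Prime]

theorem core (hp2 : p ≠ 2) {k σ s K E : ℕ}
    (hs : 8 * (k + 1) * (4 + (k + 1) * (2 + s + k * ((k + 1) ^ 2 + k + 5))) ≤ 2 ^ s)
    (hE : 2 ^ eps k σ s ≤ E) (hK : 2 * E ≤ K)
    (α a : Fin (k + 1) → ℕ) (b : Fin (k + 1) → ℤ) (_hα0 : ∀ i, 0 < α i)
    (hα : ∀ i, α i ≤ 2 ^ (2 ^ σ)) (hb : ∀ i, |b i| ≤ 2 ^ (2 ^ σ)) (hb0 : ¬ (p : ℤ) ∣ b 0)
    (ha : ∀ i, (α i : ZMod (p ^ E)) = (PadicInt.toZModPow E (EE p K 1)) ^ (a i))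
    (hrel : (p : ℤ) ^ E ∣ ∑ i, b i * a i)
    (hinj : Function.Injective
      (fun l : Fin (k + 1) → Fin (2 ^ ell k σ s) => ∏ i, α i ^ (l i : ℕ))) : False := by
  classical
  set Λ := 2 ^ ell k σ s with hΛ
  set ι := Fin (k + 1) → Fin Λ with hι
  set x : ι → ℤ := fun l => ((∏ i, α i ^ (l i : ℕ) : ℕ) : ℤ) with hx
  set A : ι → ℕ := fun l => ∑ i, (l i : ℕ) * a i with hA
  set δ : ι → Fin k → ℤ := fun l i => b 0 * ((l i.succ : ℕ) : ℤ) - b i.succ * ((l 0 : ℕ) : ℤ) with hδ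
  set Δ := 2 ^ σ + ell k σ s + 1 with hΔ
  set Xs := 2 ^ σ * (k + 1) * 2 ^ ell k σ s with hXs
  set N := ell k σ s * (k + 1) with hN
  have hcard : Fintype.card ι = 2 ^ N := by
    change Fintype.card (Fin (k + 1) → Fin Λ) = 2 ^ N
    rw [Fintype.card_fun, Fintype.card_fin, Fintype.card_fin, hΛ, ← pow_mul]
  have hxz : ∀ l, (x l : ZMod (p ^ E)) = (PadicInt.toZModPow E (EE p K 1)) ^ (A l) := by
    intro l
    rw [hx, hA]
    push_cast
    rw [← Finset.prod_pow_eq_pow_sum]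
    apply Finset.prod_congr rfl
    intro i _
    rw [ha i, ← pow_mul, mul_comm]
  have hAd : ∀ l, ((p : ℤ) ^ E) ∣ b 0 * A l - ∑ i : Fin k, ((a i.succ : ℕ) : ℤ) * δ l i := by
    intro l
    have h1 : b 0 * (A l : ℤ) - ∑ i : Fin k, ((a i.succ : ℕ) : ℤ) * δ l i
        = ((l 0 : ℕ) : ℤ) * ∑ i, b i * a i := by
      rw [hA, hδ]
      simp only [Nat.cast_sum, Nat.cast_mul]
      rw [Fin.sum_univ_succ, Fin.sum_univ_succ (f := fun i => b i * (a i : ℤ)), mul_add, mul_add,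
        Finset.mul_sum, Finset.mul_sum, add_sub_assoc, ← Finset.sum_sub_distrib]
      congr 1
      · ring
      · apply Finset.sum_congr rfl
        intro i _
        ring
    rw [h1]
    exact Dvd.dvd.mul_left hrel _
  have hlt : ∀ (l : ι) (i : Fin (k + 1)), ((l i : ℕ) : ℤ) ≤ 2 ^ ell k σ s := by
    intro l i
    have := (l i).2
    have h2 : ((l i : ℕ)) ≤ 2 ^ ell k σ s := by rw [← hΛ]; exact this.le
    exact_mod_cast h2
  have hδb : ∀ l i, |δ l i| ≤ 2 ^ Δ := by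
    intro l i
    rw [hδ]
    calc |b 0 * ((l i.succ : ℕ) : ℤ) - b i.succ * ((l 0 : ℕ) : ℤ)|
        ≤ |b 0 * ((l i.succ : ℕ) : ℤ)| + |b i.succ * ((l 0 : ℕ) : ℤ)| := abs_sub _ _
      _ ≤ 2 ^ (2 ^ σ) * 2 ^ ell k σ s + 2 ^ (2 ^ σ) * 2 ^ ell k σ s := by
          rw [abs_mul, abs_mul, Nat.abs_cast, Nat.abs_cast]
          apply add_le_add
          · exact mul_le_mul (hb 0) (hlt l _) (by positivity) (by positivity)
          · exact mul_le_mul (hb _) (hlt l _) (by positivity) (by positivity)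
      _ = 2 ^ Δ := by rw [hΔ, pow_add, pow_add]; ring
  have hxb : ∀ l, |x l| ≤ 2 ^ Xs := by
    intro l
    rw [hx]
    simp only [Nat.abs_cast]
    have h1 : (∏ i, α i ^ (l i : ℕ)) ≤ ∏ _i : Fin (k + 1), 2 ^ (2 ^ σ * 2 ^ ell k σ s) := by
      apply Finset.prod_le_prod'
      intro i _
      calc α i ^ (l i : ℕ) ≤ (2 ^ (2 ^ σ)) ^ (l i : ℕ) := Nat.pow_le_pow_left (hα i) _
        _ ≤ (2 ^ (2 ^ σ)) ^ (2 ^ ell k σ s) := by
            apply Nat.pow_le_pow_right (by positivity)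
            have := (l i).2
            rw [← hΛ]; exact this.le
        _ = _ := by rw [← pow_mul]
    rw [Finset.prod_const, Finset.card_univ, Fintype.card_fin, ← pow_mul] at h1
    have h2 : 2 ^ σ * 2 ^ ell k σ s * (k + 1) = Xs := by rw [hXs]; ring
    rw [h2] at h1
    exact_mod_cast h1
  -- Siegel
  set T0 := 2 ^ tau k σ s with hT0
  set Z0 := 2 ^ (σ + s) with hZ0
  obtain ⟨P, hP0, hPs, hPb⟩ := siegel_two
    (ρ := (Fin k → Fin T0) × Fin Z0) (κ := ι)
    (fun mz l => (∏ i, δ l i ^ ((mz.1 i : ℕ))) * x l ^ (mz.2 : ℕ))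
    (2 ^ (Δ * (k * T0) + Xs * Z0)) (Nat.one_le_two_pow)
    (by
      rintro ⟨m, z⟩ l
      simp only [abs_mul, abs_pow, Finset.abs_prod]
      push_cast
      rw [pow_add]
      apply mul_le_mul
      · calc ∏ i, |δ l i| ^ (m i : ℕ) ≤ ∏ _i : Fin k, (2 : ℤ) ^ (Δ * T0) := by
              apply Finset.prod_le_prod
              · intro i _; positivity
              · intro i _
                rw [pow_mul]
                calc |δ l i| ^ (m i : ℕ) ≤ (2 ^ Δ) ^ (m i : ℕ) :=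
                      pow_le_pow_left₀ (abs_nonneg _) (hδb l i) _
                  _ ≤ (2 ^ Δ) ^ T0 := by
                      apply pow_le_pow_right₀ _ (m i).2.le
                      exact one_le_pow₀ (by norm_num)
          _ = 2 ^ (Δ * (k * T0)) := by
              rw [Finset.prod_const, Finset.card_univ, Fintype.card_fin, ← pow_mul]
              congr 1; ring
      · rw [pow_mul]
        calc |x l| ^ (z : ℕ) ≤ (2 ^ Xs) ^ (z : ℕ) := pow_le_pow_left₀ (abs_nonneg _) (hxb l) _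
          _ ≤ (2 ^ Xs) ^ Z0 := by
              apply pow_le_pow_right₀ _ z.2.le
              exact one_le_pow₀ (by norm_num)
      · positivity
      · positivity)
    (by
      rw [hcard, Fintype.card_prod, Fintype.card_fun, Fintype.card_fin, Fintype.card_fin,
        Fintype.card_fin, hT0, hZ0, ← pow_mul, hN, num2]
      rw [pow_succ, pow_add, mul_comm (tau k σ s) k]
      exact le_of_eq (by ring))
    (by
      rw [Fintype.card_prod, Fintype.card_fun, Fintype.card_fin, Fintype.card_fin,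
        Fintype.card_fin, hT0, hZ0]
      positivity)
  set π := N + Δ * (k * T0) + Xs * Z0 with hπ
  have hPb' : ∀ l, |P l| ≤ 2 ^ π := by
    intro l
    refine (hPb l).trans (le_of_eq ?_)
    rw [hcard, hπ]
    push_cast
    rw [← pow_add]
    congr 1
    ring
  -- parameters for the iteration
  obtain ⟨t, ht⟩ : ∃ t, tau k σ s = t + (k + 1) ^ 2 := by
    refine ⟨tau k σ s - (k + 1) ^ 2, ?_⟩
    have h6 : tau k σ s = gam k σ + gro k σ s + ell k σ s := rfl
    have h7 : gam k σ = (k + 1) ^ 2 + σ + k + 4 := rfl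
    omega
  obtain ⟨z, hz⟩ : ∃ z, σ + s = z + 1 := by
    refine ⟨σ + s - 1, ?_⟩
    have h1 := num1 (σ := σ) hs
    have : 1 ≤ (k + 1) * (2 ^ σ + ell k σ s + 3) := Nat.mul_pos (by omega) (by positivity)
    by_contra hcon
    have h3 : σ + s = 0 := by omega
    rw [h3] at h1
    omega
  have hK0 : 0 < K := by
    have : 0 < 2 ^ eps k σ s := by positivity
    omega
  have main : ∀ J ≤ (k + 1) ^ 2, ∀ Q : MvPolynomial (Fin k) ℤ,
      Q.totalDegree < 2 ^ (t + ((k + 1) ^ 2 - J)) →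
      ∀ y < 2 ^ (σ + s + J * gro k σ s), GG P δ x Q y = 0 := by
    intro J
    induction J with
    | zero =>
      intro _ Q hQ y hy
      rw [Nat.sub_zero, ← ht, ← hT0] at hQ
      rw [zero_mul, add_zero, ← hZ0] at hy
      apply GG_zero_of_mono P δ x _ Q hQ
      intro m hm
      have hmi : ∀ i, m i < T0 := by
        intro i
        refine lt_of_le_of_lt ?_ hm
        rw [Finsupp.sum_fintype _ _ (fun _ => rfl)]
        exact Finset.single_le_sum (f := fun i => m i) (fun _ _ => Nat.zero_le _) (mem_univ i)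
      have h1 := hPs (fun i => ⟨m i, hmi i⟩, ⟨y, hy⟩)
      rw [GG, ← h1]
      apply Finset.sum_congr rfl
      intro l _
      rw [MvPolynomial.eval_monomial, one_mul, Finsupp.prod_fintype _ _ (fun i => pow_zero _)]
      ring
    | succ J ih =>
      intro hJ Q hQ y hy
      have ih' := ih (by omega)
      set r := (k + 1) ^ 2 - (J + 1) with hr
      have hJr : J + r + 1 = (k + 1) ^ 2 := by omega
      have hJr' : (k + 1) ^ 2 - J = r + 1 := by omega
      rw [hJr'] at ih'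
      have h2T : 2 ^ (t + (r + 1)) = 2 * 2 ^ (t + r) := by rw [← add_assoc, pow_succ]; ring
      rw [h2T] at ih'
      have hnum := num3 hs hJr ht hz
      refine step hp2 (T := 2 ^ (t + r)) (Z := 2 ^ (σ + s + J * gro k σ s))
        (Z' := 2 ^ (σ + s + (J + 1) * gro k σ s)) (d := 2 ^ (t + r + z + J * gro k σ s))
        (N := N) (π := π) (Δ := Δ) (Xs := Xs)
        P δ x A (fun i => ((a i.succ : ℕ) : ℤ)) (b 0) hb0 hK hK0 hxz hAd ih' ?_ ?_ hcard.le hPb'
        hδb hxb (by positivity) ?_ Q hQ y hy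
      · rw [← pow_add, ← pow_succ']
        apply Nat.le_succ_of_le
        apply Nat.pow_le_pow_right (by norm_num)
        omega
      · refine le_trans ?_ hE
        have e1 : 2 ^ (t + r) * (2 ^ (σ + s + J * gro k σ s)) ^ 2
            ≤ 2 ^ (eps k σ s - 1) := by
          rw [← pow_mul, ← pow_add]
          apply Nat.pow_le_pow_right (by norm_num)
          have e3 : J * gro k σ s ≤ (k + 1) ^ 2 * gro k σ s := Nat.mul_le_mul_right _ (by omega)
          rw [eps]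
          omega
        have e2 : 2 ^ (t + r + z + J * gro k σ s) ≤ 2 ^ (eps k σ s - 1) := by
          apply Nat.pow_le_pow_right (by norm_num)
          have e3 : J * gro k σ s ≤ (k + 1) ^ 2 * gro k σ s := Nat.mul_le_mul_right _ (by omega)
          rw [eps]
          omega
        have e4 : 2 ^ eps k σ s = 2 ^ (eps k σ s - 1) + 2 ^ (eps k σ s - 1) := by
          have : eps k σ s = (eps k σ s - 1) + 1 := by rw [eps]; omega
          conv_lhs => rw [this, pow_succ]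
          ring
        omega
      · rw [hπ]
        exact hnum
  have hfin := main ((k + 1) ^ 2) le_rfl 1 (by
    rw [MvPolynomial.totalDegree_one]; positivity)
  apply hP0
  apply vandermonde_zero P x
  · intro l l' h
    apply hinj
    simp only [hx] at h
    exact_mod_cast h
  · intro y hy
    have h1 : y < 2 ^ (σ + s + (k + 1) ^ 2 * gro k σ s) := by
      refine lt_of_lt_of_le hy ?_
      rw [hcard]
      apply Nat.pow_le_pow_right (by norm_num)
      rw [hN, ell]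
      have : (k + 1) * gro k σ s * (k + 1) = (k + 1) ^ 2 * gro k σ s := by ring
      omega
    have h2 := hfin y h1
    rw [GG] at h2
    simpa using h2

end Pool.Agent.TH907.Bak
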