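import Pool.Agent.TH907.Bak.Core

/-!
Discrete logarithms to the base `w = exp(p)` modulo `p^(E+1)`.
-/

namespace Pool.Agent.TH907.Bak

open Finset

variable {p : ℕ} [hp : Fact p.Prime]

theorem orderOf_omega (hp2 : p ≠ 2) {K : ℕ} (hK : 2 ≤ K) (E : ℕ) :
    orderOf (PadicInt.toZModPow (E + 1) (EE p K 1)) = p ^ E := by
  obtain ⟨y, hy⟩ := EE_one_spec (p := p) hp2 hK
  have : NeZero (p ^ (E + 1)) := ⟨pow_ne_zero _ hp.out.ne_zero⟩
  set v : ℕ := (PadicInt.toZModPow (E + 1) y).val with hv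
  have h1 : PadicInt.toZModPow (E + 1) y = (v : ZMod (p ^ (E + 1))) := by
    rw [hv, ZMod.natCast_zmod_val]
  have h2 : PadicInt.toZModPow (E + 1) (EE p K 1)
      = 1 + p * ((1 + p * v : ℤ) : ZMod (p ^ (E + 1))) := by
    rw [hy]
    simp only [map_add, map_mul, map_pow, map_one, map_natCast, h1]
    push_cast
    ring
  rw [h2]
  apply ZMod.orderOf_one_add_mul_prime hp.out hp2
  intro hd
  have h3 : (p : ℤ) ∣ 1 := by
    have h4 : (p : ℤ) ∣ (p : ℤ) * v := dvd_mul_right _ _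
    have := dvd_sub hd h4
    simpa using this
  have h5 := Int.natAbs_dvd_natAbs.2 h3
  simp at h5
  exact hp.out.one_lt.ne' h5

theorem exists_dlog (hp2 : p ≠ 2) {K : ℕ} (hK : 2 ≤ K) (E : ℕ) {α : ℕ} (hα : α ≡ 1 [MOD p]) :
    ∃ a : ℕ, (α : ZMod (p ^ (E + 1))) = (PadicInt.toZModPow (E + 1) (EE p K 1)) ^ a := by
  have : NeZero (p ^ (E + 1)) := ⟨pow_ne_zero _ hp.out.ne_zero⟩
  have hord := orderOf_omega (p := p) hp2 hK E
  set ω := PadicInt.toZModPow (E + 1) (EE p K 1) with hω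
  have hpE : 0 < p ^ E := pow_pos hp.out.pos _
  have hω1 : ω ^ (p ^ E) = 1 := by rw [← hord]; exact pow_orderOf_eq_one ω
  have hωu : IsUnit ω := IsUnit.of_pow_eq_one hω1 hpE.ne'
  have hα1 : (α : ZMod (p ^ (E + 1))) ^ (p ^ E) = 1 := by
    have h1 : (p : ℤ) ∣ (α : ℤ) - 1 := by
      have := (Nat.modEq_iff_dvd.1 hα.symm)
      simpa using this
    have h2 := dvd_sub_pow_of_dvd_sub h1 E
    have h3 : (((α : ℤ) ^ p ^ E - 1 ^ p ^ E : ℤ) : ZMod (p ^ (E + 1))) = 0 := by
      rw [ZMod.intCast_zmod_eq_zero_iff_dvd]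
      exact_mod_cast h2
    push_cast at h3
    rw [one_pow, sub_eq_zero] at h3
    exact h3
  have hαu : IsUnit (α : ZMod (p ^ (E + 1))) := IsUnit.of_pow_eq_one hα1 hpE.ne'
  obtain ⟨w, hw⟩ := hωu
  obtain ⟨u, hu⟩ := hαu
  have hcyc : IsCyclic (ZMod (p ^ (E + 1)))ˣ := ZMod.isCyclic_units_of_prime_pow p hp.out hp2 (E + 1)
  have hw1 : w ^ (p ^ E) = 1 := by
    apply Units.ext
    rw [Units.val_pow_eq_pow_val, hw, hω1, Units.val_one]
  have hu1 : u ^ (p ^ E) = 1 := by
    apply Units.ext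
    rw [Units.val_pow_eq_pow_val, hu, hα1, Units.val_one]
  have hordw : orderOf w = p ^ E := by
    rw [← hord, ← hw]
    exact (orderOf_units).symm
  classical
  -- the solutions of `x^(p^E) = 1` are the powers of `w`
  set s : Finset (ZMod (p ^ (E + 1)))ˣ := univ.filter (fun x => x ^ (p ^ E) = 1) with hs
  have hscard : s.card ≤ p ^ E := IsCyclic.card_pow_eq_one_le hpE
  set t : Finset (ZMod (p ^ (E + 1)))ˣ := (range (p ^ E)).image (fun i => w ^ i) with ht
  have htcard : t.card = p ^ E := by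
    rw [ht, Finset.card_image_of_injOn, card_range]
    intro i hi j hj hij
    rw [coe_range, Set.mem_Iio] at hi hj
    exact pow_injOn_Iio_orderOf (by rw [hordw]; exact hi) (by rw [hordw]; exact hj) hij
  have hts : t ⊆ s := by
    intro x hx
    rw [ht, mem_image] at hx
    obtain ⟨i, _, rfl⟩ := hx
    rw [hs, mem_filter]
    refine ⟨mem_univ _, ?_⟩
    rw [← pow_mul, mul_comm, pow_mul, hw1, one_pow]
  have hst : t = s := Finset.eq_of_subset_of_card_le hts (by rw [htcard]; exact hscard)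
  have hus : u ∈ t := by
    rw [hst, hs, mem_filter]
    exact ⟨mem_univ _, hu1⟩
  rw [ht, mem_image] at hus
  obtain ⟨i, _, hi⟩ := hus
  refine ⟨i, ?_⟩
  rw [← hu, ← hi, Units.val_pow_eq_pow_val, hw]

/-- A multiplicative relation gives a linear relation between discrete logarithms. -/
theorem rel_dlog (hp2 : p ≠ 2) {K : ℕ} (hK : 2 ≤ K) {E n : ℕ} (u : Fin n → (ZMod (p ^ (E + 1)))ˣ)
    (a : Fin n → ℕ) (b : Fin n → ℤ)
    (ha : ∀ i, (u i : ZMod (p ^ (E + 1))) = (PadicInt.toZModPow (E + 1) (EE p K 1)) ^ (a i))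
    (hrel : ∏ i, (u i) ^ (b i) = 1) : (p : ℤ) ^ E ∣ ∑ i, b i * a i := by
  have hord := orderOf_omega (p := p) hp2 hK E
  set ω := PadicInt.toZModPow (E + 1) (EE p K 1) with hω
  have hpE : 0 < p ^ E := pow_pos hp.out.pos _
  have hω1 : ω ^ (p ^ E) = 1 := by rw [← hord]; exact pow_orderOf_eq_one ω
  have hωu : IsUnit ω := IsUnit.of_pow_eq_one hω1 hpE.ne'
  obtain ⟨w, hw⟩ := hωu
  have hordw : orderOf w = p ^ E := by
    rw [← hord, ← hw]
    exact (orderOf_units).symm
  have huw : ∀ i, u i = w ^ (a i) := by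
    intro i
    apply Units.ext
    rw [ha i, Units.val_pow_eq_pow_val, hw]
  have h1 : w ^ (∑ i, b i * a i) = 1 := by
    rw [← hrel]
    have : ∀ s : Finset (Fin n), w ^ (∑ i ∈ s, b i * (a i : ℤ)) = ∏ i ∈ s, (u i) ^ (b i) := by
      intro s
      classical
      induction s using Finset.induction_on with
      | empty => simp
      | insert i s hi ih =>
        rw [Finset.sum_insert hi, Finset.prod_insert hi, zpow_add, ih, huw i]
        congr 1
        rw [← zpow_natCast, ← zpow_mul, mul_comm]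
    exact this univ
  rw [← orderOf_dvd_iff_zpow_eq_one, hordw] at h1
  exact_mod_cast h1

end Pool.Agent.TH907.Bak
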