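import Mathlib

/-!
p-adic integers `e_j = p^j / j!` and truncated exponential sums.
-/

namespace Pool.Agent.TH907.Bak

open Finset Polynomial

variable {p : ℕ} [hp : Fact p.Prime]

/-- If a positive natural number `n` has valuation at most `v` and `p^E` divides `n * x`,
then `p^(E-v)` divides `x`. -/
theorem dvd_of_natCast_mul {n : ℕ} (hn : n ≠ 0) {v E : ℕ} (hv : padicValNat p n ≤ v)
    {x : ℤ_[p]} (h : (p : ℤ_[p]) ^ E ∣ (n : ℤ_[p]) * x) : (p : ℤ_[p]) ^ (E - v) ∣ x := by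
  obtain ⟨m, hm⟩ : p ^ padicValNat p n ∣ n := pow_padicValNat_dvd
  set w := padicValNat p n with hw
  have hmp : ¬ p ∣ m := by
    intro hd
    obtain ⟨r, hr⟩ := hd
    have h1 : p ^ (w + 1) ∣ n := ⟨r, by rw [hm, hr]; ring⟩
    have h2 := (padicValNat_dvd_iff_le hn).1 h1
    omega
  have hu : IsUnit ((m : ℕ) : ℤ_[p]) := by
    rw [PadicInt.isUnit_iff, PadicInt.norm_natCast_eq_one_iff]
    exact (Nat.Prime.coprime_iff_not_dvd hp.out).2 hmp
  have hp0 : (p : ℤ_[p]) ≠ 0 := PadicInt.prime_p.ne_zero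
  rcases le_or_gt E w with hEw | hEw
  · have : E - v = 0 := by omega
    rw [this, pow_zero]
    exact one_dvd _
  · have h3 : (p : ℤ_[p]) ^ E ∣ (p : ℤ_[p]) ^ w * ((m : ℤ_[p]) * x) := by
      have : (p : ℤ_[p]) ^ w * ((m : ℤ_[p]) * x) = (n : ℤ_[p]) * x := by
        rw [hm]; push_cast; ring
      rwa [this]
    have h4 : (p : ℤ_[p]) ^ (E - w) ∣ (m : ℤ_[p]) * x := by
      have h5 : (p : ℤ_[p]) ^ E = (p : ℤ_[p]) ^ w * (p : ℤ_[p]) ^ (E - w) := by
        rw [← pow_add]; congr 1; omega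
      rw [h5] at h3
      exact (mul_dvd_mul_iff_left (pow_ne_zero w hp0)).1 h3
    have h6 : (p : ℤ_[p]) ^ (E - w) ∣ x := by
      obtain ⟨u, hu⟩ := hu
      rw [← hu] at h4
      exact (Units.dvd_mul_left).1 h4
    exact (pow_dvd_pow _ (by omega)).trans h6

theorem val_factorial_le (hp2 : p ≠ 2) (j : ℕ) : padicValNat p j.factorial ≤ (j - 1) / 2 := by
  rcases Nat.eq_zero_or_pos j with h0 | h0
  · subst h0; simp
  · have h1 := sub_one_mul_padicValNat_factorial_lt_of_ne_zero p (n := j) (by omega)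
    have h2 : 2 ≤ p - 1 := by
      have := hp.out.two_le
      omega
    have h3 : 2 * padicValNat p j.factorial ≤ (p - 1) * padicValNat p j.factorial :=
      Nat.mul_le_mul_right _ h2
    omega

theorem exists_ee (hp2 : p ≠ 2) (j : ℕ) :
    ∃ e : ℤ_[p], (j.factorial : ℤ_[p]) * e = (p : ℤ_[p]) ^ j ∧
      (p : ℤ_[p]) ^ (j - (j - 1) / 2) ∣ e := by
  have hv := val_factorial_le (p := p) hp2 j
  obtain ⟨m, hm⟩ : p ^ padicValNat p j.factorial ∣ j.factorial := pow_padicValNat_dvd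
  set w := padicValNat p j.factorial with hw
  have hmp : ¬ p ∣ m := by
    intro hd
    obtain ⟨r, hr⟩ := hd
    have h1 : p ^ (w + 1) ∣ j.factorial := ⟨r, by rw [hm, hr]; ring⟩
    have h2 := (padicValNat_dvd_iff_le (Nat.factorial_ne_zero j)).1 h1
    omega
  have hu : IsUnit ((m : ℕ) : ℤ_[p]) := by
    rw [PadicInt.isUnit_iff, PadicInt.norm_natCast_eq_one_iff]
    exact (Nat.Prime.coprime_iff_not_dvd hp.out).2 hmp
  obtain ⟨u, hu⟩ := hu
  have hwj : w ≤ j := by omega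
  refine ⟨(p : ℤ_[p]) ^ (j - w) * (↑(u⁻¹) : ℤ_[p]), ?_, ?_⟩
  · have h5 : (p : ℤ_[p]) ^ j = (p : ℤ_[p]) ^ w * (p : ℤ_[p]) ^ (j - w) := by
      rw [← pow_add]; congr 1; omega
    have h6 : (j.factorial : ℤ_[p]) = (p : ℤ_[p]) ^ w * (u : ℤ_[p]) := by
      rw [hu]
      conv_lhs => rw [hm]
      push_cast
      ring
    rw [h6, h5]
    have h7 : (u : ℤ_[p]) * (↑(u⁻¹) : ℤ_[p]) = 1 := u.mul_inv
    calc (p : ℤ_[p]) ^ w * (u : ℤ_[p]) * ((p : ℤ_[p]) ^ (j - w) * (↑(u⁻¹) : ℤ_[p]))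
        = (p : ℤ_[p]) ^ w * (p : ℤ_[p]) ^ (j - w) * ((u : ℤ_[p]) * (↑(u⁻¹) : ℤ_[p])) := by ring
      _ = _ := by rw [h7, mul_one]
  · exact Dvd.dvd.mul_right (pow_dvd_pow _ (by omega)) _

/-- The `p`-adic integer `p^j / j!` (for odd `p`; junk value for `p = 2`). -/
noncomputable def ee (p : ℕ) [hp : Fact p.Prime] (j : ℕ) : ℤ_[p] :=
  if h : p ≠ 2 then Classical.choose (exists_ee h j) else 0

theorem factorial_mul_ee (hp2 : p ≠ 2) (j : ℕ) :
    (j.factorial : ℤ_[p]) * ee p j = (p : ℤ_[p]) ^ j := by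
  rw [ee, dif_pos hp2]
  exact (Classical.choose_spec (exists_ee hp2 j)).1

theorem dvd_ee' (hp2 : p ≠ 2) (j : ℕ) : (p : ℤ_[p]) ^ (j - (j - 1) / 2) ∣ ee p j := by
  rw [ee, dif_pos hp2]
  exact (Classical.choose_spec (exists_ee hp2 j)).2

theorem dvd_ee (hp2 : p ≠ 2) (j : ℕ) : (p : ℤ_[p]) ^ ((j + 1) / 2) ∣ ee p j :=
  (pow_dvd_pow _ (by omega)).trans (dvd_ee' hp2 j)

theorem natCast_ne_zero {n : ℕ} (hn : n ≠ 0) : (n : ℤ_[p]) ≠ 0 := Nat.cast_ne_zero.2 hn

theorem ee_mul_ee (hp2 : p ≠ 2) (i j : ℕ) :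
    ee p i * ee p j = ((i + j).choose i : ℤ_[p]) * ee p (i + j) := by
  have h1 := factorial_mul_ee (p := p) hp2 i
  have h2 := factorial_mul_ee (p := p) hp2 j
  have h3 := factorial_mul_ee (p := p) hp2 (i + j)
  have h4 : ((i + j).choose i * i.factorial * j.factorial : ℕ) = (i + j).factorial := by
    have := Nat.add_choose_mul_factorial_mul_factorial i j
    rwa [← Nat.choose_symm_add] at this
  have h5 : (((i + j).choose i : ℕ) : ℤ_[p]) * (i.factorial : ℤ_[p]) * (j.factorial : ℤ_[p])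
      = ((i + j).factorial : ℤ_[p]) := by exact_mod_cast congrArg (Nat.cast (R := ℤ_[p])) h4
  have hi : (i.factorial : ℤ_[p]) ≠ 0 := natCast_ne_zero (Nat.factorial_ne_zero i)
  have hj : (j.factorial : ℤ_[p]) ≠ 0 := natCast_ne_zero (Nat.factorial_ne_zero j)
  apply mul_left_cancel₀ (mul_ne_zero hi hj)
  calc (i.factorial : ℤ_[p]) * (j.factorial : ℤ_[p]) * (ee p i * ee p j)
      = ((i.factorial : ℤ_[p]) * ee p i) * ((j.factorial : ℤ_[p]) * ee p j) := by ring
    _ = (p : ℤ_[p]) ^ (i + j) := by rw [h1, h2, pow_add]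
    _ = ((i + j).factorial : ℤ_[p]) * ee p (i + j) := h3.symm
    _ = (((i + j).choose i : ℕ) : ℤ_[p]) * (i.factorial : ℤ_[p]) * (j.factorial : ℤ_[p])
          * ee p (i + j) := by rw [h5]
    _ = _ := by ring

theorem ee_zero (hp2 : p ≠ 2) : ee p 0 = 1 := by
  have := factorial_mul_ee (p := p) hp2 0
  simpa using this

theorem ee_one (hp2 : p ≠ 2) : ee p 1 = p := by
  have := factorial_mul_ee (p := p) hp2 1
  simpa using this

/-- Truncated exponential sum `∑_{j<K} e_j x^j`. -/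
noncomputable def EE (p : ℕ) [hp : Fact p.Prime] (K : ℕ) (x : ℤ_[p]) : ℤ_[p] :=
  ∑ j ∈ range K, ee p j * x ^ j

theorem EE_add (hp2 : p ≠ 2) (K : ℕ) (x y : ℤ_[p]) :
    (p : ℤ_[p]) ^ ((K + 1) / 2) ∣ EE p K x * EE p K y - EE p K (x + y) := by
  -- rewrite `EE (x+y)` as a sum over pairs
  have h1 : EE p K (x + y)
      = ∑ q ∈ (range K ×ˢ range K).filter (fun q => q.1 + q.2 < K),
          ee p q.1 * ee p q.2 * (x ^ q.1 * y ^ q.2) := by
    have h2 : ∀ n ∈ range K, ee p n * (x + y) ^ n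
        = ∑ q ∈ antidiagonal n, ee p q.1 * ee p q.2 * (x ^ q.1 * y ^ q.2) := by
      intro n _
      rw [(Commute.all x y).add_pow', Finset.mul_sum]
      apply Finset.sum_congr rfl
      intro q hq
      rw [HasAntidiagonal.mem_antidiagonal] at hq
      subst hq
      rw [ee_mul_ee hp2, nsmul_eq_mul]
      ring
    rw [EE, Finset.sum_congr rfl h2]
    rw [Finset.sum_sigma']
    refine Finset.sum_nbij' (fun s => s.2) (fun q => ⟨q.1 + q.2, q⟩) ?_ ?_ ?_ ?_ ?_
    · rintro ⟨n, q⟩ hq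
      simp only [mem_sigma, mem_range, HasAntidiagonal.mem_antidiagonal] at hq
      simp only [mem_filter, mem_product, mem_range]
      omega
    · rintro q hq
      simp only [mem_filter, mem_product, mem_range] at hq
      simp only [mem_sigma, mem_range, HasAntidiagonal.mem_antidiagonal]
      exact ⟨hq.2, trivial⟩
    · rintro ⟨n, q⟩ hq
      simp only [mem_sigma, mem_range, HasAntidiagonal.mem_antidiagonal] at hq
      obtain ⟨_, rfl⟩ := hq
      rfl
    · rintro q hq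
      rfl
    · rintro ⟨n, q⟩ hq
      rfl
  have h3 : EE p K x * EE p K y
      = ∑ q ∈ (range K ×ˢ range K), ee p q.1 * ee p q.2 * (x ^ q.1 * y ^ q.2) := by
    rw [EE, EE, Finset.sum_mul_sum, Finset.sum_product]
    apply Finset.sum_congr rfl
    intro i _
    apply Finset.sum_congr rfl
    intro j _
    ring
  rw [h3, h1, ← Finset.sum_filter_add_sum_filter_not (range K ×ˢ range K)
    (fun q => q.1 + q.2 < K), add_sub_cancel_left]
  apply Finset.dvd_sum
  intro q hq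
  simp only [mem_filter, mem_product, mem_range, not_lt] at hq
  apply Dvd.dvd.mul_right
  have h4 : (p : ℤ_[p]) ^ ((q.1 + 1) / 2 + (q.2 + 1) / 2) ∣ ee p q.1 * ee p q.2 := by
    rw [pow_add]
    exact mul_dvd_mul (dvd_ee hp2 _) (dvd_ee hp2 _)
  exact (pow_dvd_pow _ (by omega)).trans h4

theorem EE_natCast (hp2 : p ≠ 2) {K : ℕ} (hK : 0 < K) (n : ℕ) :
    (p : ℤ_[p]) ^ ((K + 1) / 2) ∣ EE p K n - (EE p K 1) ^ n := by
  induction n with
  | zero =>
    have : EE p K ((0 : ℕ) : ℤ_[p]) = 1 := by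
      rw [EE]
      rw [Finset.sum_eq_single 0]
      · simp [ee_zero hp2]
      · intro b _ hb
        simp [hb]
      · intro h
        exact absurd (mem_range.2 hK) h
    rw [this]
    simp
  | succ n ih =>
    have h1 := EE_add hp2 K (n : ℤ_[p]) 1
    have h2 : EE p K ((n + 1 : ℕ) : ℤ_[p]) - EE p K 1 ^ (n + 1)
        = (EE p K n - EE p K 1 ^ n) * EE p K 1
          - (EE p K n * EE p K 1 - EE p K (n + 1)) := by
      push_cast
      ring
    rw [h2]
    exact dvd_sub (Dvd.dvd.mul_right ih _) h1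

theorem EE_one_spec (hp2 : p ≠ 2) {K : ℕ} (hK : 2 ≤ K) :
    ∃ y : ℤ_[p], EE p K 1 = 1 + p + (p : ℤ_[p]) ^ 2 * y := by
  have h1 : (p : ℤ_[p]) ^ 2 ∣ EE p K 1 - 1 - p := by
    obtain ⟨L, rfl⟩ : ∃ L, K = L + 2 := ⟨K - 2, by omega⟩
    rw [EE, Finset.sum_range_succ', Finset.sum_range_succ']
    simp only [zero_add, pow_zero, mul_one, one_pow, ee_zero hp2, ee_one hp2]
    have : ∑ k ∈ range L, ee p (k + 1 + 1) + (p : ℤ_[p]) + 1 - 1 - p
        = ∑ k ∈ range L, ee p (k + 1 + 1) := by ring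
    rw [this]
    apply Finset.dvd_sum
    intro k _
    exact (pow_dvd_pow _ (by omega)).trans (dvd_ee' hp2 _)
  obtain ⟨y, hy⟩ := h1
  exact ⟨y, by rw [← hy]; ring⟩

/-- Exponential polynomial `∑_{j<K} e_j c^j X^j`. -/
noncomputable def EP (p : ℕ) [hp : Fact p.Prime] (K : ℕ) (c : ℤ_[p]) : ℤ_[p][X] :=
  ∑ j ∈ range K, monomial j (ee p j * c ^ j)

theorem EP_eval (K : ℕ) (c z : ℤ_[p]) : (EP p K c).eval z = EE p K (c * z) := by
  rw [EP, EE, Polynomial.eval_finsetSum]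
  apply Finset.sum_congr rfl
  intro j _
  rw [Polynomial.eval_monomial, mul_pow]
  ring

theorem EP_coeff_dvd (hp2 : p ≠ 2) (K : ℕ) (c : ℤ_[p]) (k : ℕ) :
    (p : ℤ_[p]) ^ ((k + 1) / 2) ∣ (EP p K c).coeff k := by
  rw [EP, Polynomial.finsetSum_coeff]
  apply Finset.dvd_sum
  intro j _
  rw [Polynomial.coeff_monomial]
  split_ifs with h
  · subst h
    exact Dvd.dvd.mul_right (dvd_ee hp2 _) _
  · exact dvd_zero _

/-- Taylor coefficients of the exponential polynomial. -/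
theorem EP_taylor (hp2 : p ≠ 2) (K : ℕ) (c z : ℤ_[p]) (i : ℕ) :
    (p : ℤ_[p]) ^ ((K + 1) / 2) ∣
      ((EP p K c).comp (X + C z)).coeff i - ee p i * c ^ i * EE p K (c * z) := by
  have h1 : ((EP p K c).comp (X + C z)).coeff i
      = ∑ n ∈ range K, ee p n * c ^ n * (z ^ (n - i) * (n.choose i : ℤ_[p])) := by
    rw [EP, Polynomial.sum_comp, Polynomial.finsetSum_coeff]
    apply Finset.sum_congr rfl
    intro n _
    rw [Polynomial.monomial_comp, Polynomial.coeff_C_mul, Polynomial.coeff_X_add_C_pow]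
  -- express the sum through `m = n - i`
  have h2 : ∑ n ∈ range K, ee p n * c ^ n * (z ^ (n - i) * (n.choose i : ℤ_[p]))
      = ∑ m ∈ range (K - i), ee p i * ee p m * c ^ (i + m) * z ^ m := by
    rcases le_or_gt K i with hKi | hKi
    · rw [Nat.sub_eq_zero_of_le hKi, Finset.range_zero, Finset.sum_empty]
      apply Finset.sum_eq_zero
      intro n hn
      rw [mem_range] at hn
      rw [Nat.choose_eq_zero_of_lt (by omega)]
      simp
    · obtain ⟨L, rfl⟩ : ∃ L, K = i + L := ⟨K - i, by omega⟩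
      rw [Finset.sum_range_add, Nat.add_sub_cancel_left]
      have h3 : ∑ n ∈ range i, ee p n * c ^ n * (z ^ (n - i) * (n.choose i : ℤ_[p])) = 0 := by
        apply Finset.sum_eq_zero
        intro n hn
        rw [mem_range] at hn
        rw [Nat.choose_eq_zero_of_lt (by omega)]
        simp
      rw [h3, zero_add]
      apply Finset.sum_congr rfl
      intro m _
      rw [ee_mul_ee hp2, Nat.add_sub_cancel_left]
      ring
  have h4 : ee p i * c ^ i * EE p K (c * z)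
      = ∑ m ∈ range K, ee p i * ee p m * c ^ (i + m) * z ^ m := by
    rw [EE, Finset.mul_sum]
    apply Finset.sum_congr rfl
    intro m _
    rw [mul_pow, pow_add]
    ring
  rw [h1, h2, h4]
  have h5 : range (K - i) ⊆ range K := Finset.range_subset_range.2 (by omega)
  rw [← Finset.sum_sdiff h5, sub_add_cancel_right, dvd_neg]
  apply Finset.dvd_sum
  intro m hm
  rw [mem_sdiff, mem_range, mem_range] at hm
  apply Dvd.dvd.mul_right
  apply Dvd.dvd.mul_right
  have h6 : (p : ℤ_[p]) ^ ((i + 1) / 2 + (m + 1) / 2) ∣ ee p i * ee p m := by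
    rw [pow_add]
    exact mul_dvd_mul (dvd_ee hp2 _) (dvd_ee hp2 _)
  exact (pow_dvd_pow _ (by omega)).trans h6

end Pool.Agent.TH907.Bak
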