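import Pool.Agent.TH907.Bak.Exp

/-!
A Chinese remainder lemma with denominators and the resulting polynomial Schwarz lemma.
-/

namespace Pool.Agent.TH907.Bak

open Finset Polynomial

/-- node polynomial -/
noncomputable def WW (R : Type*) [CommRing R] (T Z : ℕ) : R[X] :=
  ∏ z ∈ range Z, (X - C (z : R)) ^ T

theorem WW_monic (R : Type*) [CommRing R] (T Z : ℕ) : (WW R T Z).Monic := by
  rw [WW]
  exact monic_prod_of_monic _ _ fun z _ => (monic_X_sub_C _).pow T

theorem WW_natDegree (R : Type*) [CommRing R] [Nontrivial R] (T Z : ℕ) :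
    (WW R T Z).natDegree = T * Z := by
  rw [WW, natDegree_prod_of_monic]
  · have : ∀ z ∈ range Z, ((X - C (z : R)) ^ T).natDegree = T := by
      intro z _
      rw [(monic_X_sub_C _).natDegree_pow, natDegree_X_sub_C, mul_one]
    rw [Finset.sum_congr rfl this]
    simp [mul_comm]
  · exact fun z _ => (monic_X_sub_C _).pow T

theorem WW_map {R S : Type*} [CommRing R] [CommRing S] (f : R →+* S) (T Z : ℕ) :
    (WW R T Z).map f = WW S T Z := by
  rw [WW, WW, Polynomial.map_prod]
  apply Finset.prod_congr rfl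
  intro z _
  simp

theorem crt {R : Type*} [CommRing R] (T : ℕ) (F : R[X]) :
    ∀ Z : ℕ, (∀ z < Z, (X - C (z : R)) ^ T ∣ F) →
      WW R T Z ∣ C ((∏ z ∈ range Z, (z.factorial) ^ (2 * T) : ℕ) : R) * F := by
  intro Z
  induction Z with
  | zero => intro _; simp [WW]
  | succ Z ih =>
    intro h
    have ih' := ih fun z hz => h z (by omega)
    have hZ := h Z (by omega)
    -- `Z!` in terms of `V` and `X - Z`
    set V : R[X] := ∏ z ∈ range Z, (X - C (z : R)) with hV
    have hVT : WW R T Z = V ^ T := by rw [WW, hV, Finset.prod_pow]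
    have hev : V.eval (Z : R) = (Z.factorial : R) := by
      rw [hV, Polynomial.eval_prod]
      have h1 : ∀ z ∈ range Z, ((X : R[X]) - C (z : R)).eval (Z : R) = (((Z - z : ℕ)) : R) := by
        intro z hz
        rw [mem_range] at hz
        simp [Nat.cast_sub hz.le]
      rw [Finset.prod_congr rfl h1, ← Nat.cast_prod]
      congr 1
      rw [← Finset.prod_range_reflect]
      rw [← Finset.prod_range_add_one_eq_factorial]
      apply Finset.prod_congr rfl
      intro z hz
      rw [mem_range] at hz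
      omega
    obtain ⟨U, hU⟩ : (X - C (Z : R)) ∣ V - C (V.eval (Z : R)) := X_sub_C_dvd_sub_C_eval
    rw [hev] at hU
    have hfac : (C (Z.factorial : R) : R[X]) = V + -((X - C (Z : R)) * U) := by
      rw [← hU]; ring
    have hmem : (C (Z.factorial : R) : R[X]) ^ (2 * T) ∈
        Ideal.span {V ^ T, (X - C (Z : R)) ^ T} := by
      rw [hfac]
      apply Ideal.add_pow_mem_of_pow_mem_of_le (m := T) (n := T)
      · exact Ideal.subset_span (by simp)
      · have : (-((X - C (Z : R)) * U)) ^ T = ((-U) ^ T) * (X - C (Z : R)) ^ T := by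
          rw [← mul_pow]; congr 1; ring
        rw [this]
        exact Ideal.mul_mem_left _ _ (Ideal.subset_span (by simp))
      · omega
    obtain ⟨a, b, hab⟩ := Ideal.mem_span_pair.1 hmem
    obtain ⟨A, hA⟩ := ih'
    obtain ⟨B, hB⟩ := hZ
    have hsucc : WW R T (Z + 1) = V ^ T * (X - C (Z : R)) ^ T := by
      rw [WW, Finset.prod_range_succ, ← hVT, WW]
    rw [hsucc, Finset.prod_range_succ]
    set c : ℕ := ∏ z ∈ range Z, (z.factorial) ^ (2 * T) with hc
    refine ⟨a * C (c : R) * B + b * A, ?_⟩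
    rw [hVT] at hA
    have h5 : C ((c * Z.factorial ^ (2 * T) : ℕ) : R) * F
        = (C (Z.factorial : R) : R[X]) ^ (2 * T) * (C (c : R) * F) := by
      push_cast
      rw [C_mul, C_pow]
      ring
    rw [h5, ← hab]
    calc (a * V ^ T + b * (X - C (Z : R)) ^ T) * (C (c : R) * F)
        = a * V ^ T * C (c : R) * F + b * (X - C (Z : R)) ^ T * (C (c : R) * F) := by ring
      _ = a * V ^ T * C (c : R) * ((X - C (Z : R)) ^ T * B)
            + b * (X - C (Z : R)) ^ T * (V ^ T * A) := by rw [hA, ← hB]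
      _ = _ := by ring

variable {p : ℕ} [hp : Fact p.Prime]

theorem val_prod_factorial (hp2 : p ≠ 2) (T Z : ℕ) :
    padicValNat p (∏ z ∈ range Z, (z.factorial) ^ (2 * T)) ≤ T * Z ^ 2 := by
  induction Z with
  | zero => simp
  | succ Z ih =>
    rw [Finset.prod_range_succ, padicValNat.mul, padicValNat.pow]
    · have h1 := val_factorial_le (p := p) hp2 Z
      have h2 : 2 * T * padicValNat p Z.factorial ≤ 2 * T * ((Z - 1) / 2) :=
        Nat.mul_le_mul_left _ h1
      have h3 : 2 * T * ((Z - 1) / 2) ≤ T * Z := by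
        have : 2 * ((Z - 1) / 2) ≤ Z := by omega
        calc 2 * T * ((Z - 1) / 2) = T * (2 * ((Z - 1) / 2)) := by ring
          _ ≤ T * Z := Nat.mul_le_mul_left _ this
      nlinarith
    · exact Finset.prod_ne_zero_iff.2 fun z _ => pow_ne_zero _ (Nat.factorial_ne_zero z)
    · exact pow_ne_zero _ (Nat.factorial_ne_zero Z)

theorem toZModPow_eq_zero_iff (E : ℕ) (x : ℤ_[p]) :
    PadicInt.toZModPow E x = 0 ↔ (p : ℤ_[p]) ^ E ∣ x := by
  rw [← RingHom.mem_ker, PadicInt.ker_toZModPow, Ideal.mem_span_singleton]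

/-- Polynomial Schwarz lemma. -/
theorem schwarz (hp2 : p ≠ 2) {F : ℤ_[p][X]} {T Z E d : ℕ}
    (hF : ∀ k, (p : ℤ_[p]) ^ ((k + 1) / 2) ∣ F.coeff k)
    (hZ : ∀ z < Z, (X - C (z : ZMod (p ^ E))) ^ T ∣ F.map (PadicInt.toZModPow E))
    (hd : 2 * d ≤ T * Z + 1) (hE : T * Z ^ 2 + d ≤ E) :
    ∀ k, (p : ℤ_[p]) ^ d ∣ F.coeff k := by
  rcases Nat.eq_zero_or_pos d with hd0 | hdpos
  · intro k; rw [hd0, pow_zero]; exact one_dvd _
  have hp1 : 1 < p := hp.out.one_lt
  have : Fact (1 < p ^ E) := ⟨Nat.one_lt_pow (by omega) hp1⟩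
  have : Fact (1 < p ^ d) := ⟨Nat.one_lt_pow (by omega) hp1⟩
  set n : ℕ := ∏ z ∈ range Z, (z.factorial) ^ (2 * T) with hn
  have hn0 : n ≠ 0 := Finset.prod_ne_zero_iff.2 fun z _ => pow_ne_zero _ (Nat.factorial_ne_zero z)
  have h1 : WW (ZMod (p ^ E)) T Z ∣ C (n : ZMod (p ^ E)) * F.map (PadicInt.toZModPow E) :=
    crt T _ Z hZ
  -- remainder
  set r : ℤ_[p][X] := F %ₘ WW ℤ_[p] T Z with hr
  have hmon := WW_monic ℤ_[p] T Z
  have h2 : ((C (n : ℤ_[p]) * F) %ₘ WW ℤ_[p] T Z).map (PadicInt.toZModPow E) = 0 := by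
    rw [Polynomial.map_modByMonic _ hmon, WW_map,
      (modByMonic_eq_zero_iff_dvd (WW_monic _ _ _))]
    simpa using h1
  have h3 : (C (n : ℤ_[p]) * F) %ₘ WW ℤ_[p] T Z = C (n : ℤ_[p]) * r := by
    rw [hr, ← smul_eq_C_mul, ← smul_eq_C_mul, smul_modByMonic]
  have h4 : ∀ k, (p : ℤ_[p]) ^ d ∣ r.coeff k := by
    intro k
    have h5 : PadicInt.toZModPow E ((C (n : ℤ_[p]) * r).coeff k) = 0 := by
      rw [← Polynomial.coeff_map, ← h3, h2, coeff_zero]
    rw [toZModPow_eq_zero_iff, coeff_C_mul] at h5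
    have h6 := dvd_of_natCast_mul hn0 (val_prod_factorial hp2 T Z) h5
    exact (pow_dvd_pow _ (by omega)).trans h6
  -- modulo `p^d` the polynomial has small degree
  have h7 : (F.map (PadicInt.toZModPow d)).degree < (WW (ZMod (p ^ d)) T Z).degree := by
    rw [degree_eq_natDegree (WW_monic _ _ _).ne_zero, WW_natDegree]
    rw [degree_lt_iff_coeff_zero]
    intro m hm
    rw [Polynomial.coeff_map, toZModPow_eq_zero_iff]
    exact (pow_dvd_pow _ (by omega)).trans (hF m)
  have h8 : F.map (PadicInt.toZModPow d) = r.map (PadicInt.toZModPow d) := by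
    rw [hr, Polynomial.map_modByMonic _ hmon, WW_map]
    exact ((modByMonic_eq_self_iff (WW_monic _ _ _)).2 h7).symm
  intro k
  rw [← toZModPow_eq_zero_iff, ← Polynomial.coeff_map, h8, Polynomial.coeff_map,
    toZModPow_eq_zero_iff]
  exact h4 k

end Pool.Agent.TH907.Bak
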