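import Pool.Agent.TH907.Bak.Extra

/-!
Siegel lemma, size estimates, and the iteration.
-/

namespace Pool.Agent.TH907.Bak

open Finset

attribute [local instance] Matrix.seminormedAddCommGroup

/-- Siegel's lemma with at least twice as many unknowns as equations. -/
theorem siegel_two {ρ κ : Type*} [Fintype ρ] [Fintype κ] (A : Matrix ρ κ ℤ) (B : ℕ) (hB : 1 ≤ B)
    (hA : ∀ i j, |A i j| ≤ B) (h : 2 * Fintype.card ρ ≤ Fintype.card κ)
    (h0 : 0 < Fintype.card ρ) :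
    ∃ t : κ → ℤ, t ≠ 0 ∧ (∀ i, ∑ j, A i j * t j = 0) ∧
      ∀ j, |t j| ≤ (Fintype.card κ : ℤ) * B := by
  obtain ⟨t, ht0, ht1, ht2⟩ := Int.Matrix.exists_ne_zero_int_vec_norm_le A (by omega) h0
  refine ⟨t, ht0, ?_, ?_⟩
  · intro i
    have := congrFun ht1 i
    simpa [Matrix.mulVec, dotProduct] using this
  · intro j
    have hB' : (1 : ℝ) ≤ B := by exact_mod_cast hB
    have hnorm : ‖A‖ ≤ B := by
      rw [Matrix.norm_le_iff (by positivity)]
      intro i j
      rw [Int.norm_eq_abs]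
      exact_mod_cast hA i j
    have hmax : max 1 ‖A‖ ≤ B := max_le hB' hnorm
    have hcard : (1 : ℝ) ≤ Fintype.card κ := by
      have : 1 ≤ Fintype.card κ := by omega
      exact_mod_cast this
    have hbase : (Fintype.card κ : ℝ) * max 1 ‖A‖ ≤ (Fintype.card κ : ℝ) * B :=
      mul_le_mul_of_nonneg_left hmax (by positivity)
    have hbase1 : (1 : ℝ) ≤ (Fintype.card κ : ℝ) * max 1 ‖A‖ := by
      have : (1 : ℝ) ≤ max 1 ‖A‖ := le_max_left _ _
      nlinarith
    have hexp : (Fintype.card ρ : ℝ) / ((Fintype.card κ : ℝ) - Fintype.card ρ) ≤ 1 := by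
      have h1 : (2 : ℝ) * Fintype.card ρ ≤ Fintype.card κ := by exact_mod_cast h
      have h2 : (0 : ℝ) < Fintype.card ρ := by exact_mod_cast h0
      rw [div_le_one (by linarith)]
      linarith
    have hexp0 : 0 ≤ (Fintype.card ρ : ℝ) / ((Fintype.card κ : ℝ) - Fintype.card ρ) := by
      have h1 : (2 : ℝ) * Fintype.card ρ ≤ Fintype.card κ := by exact_mod_cast h
      have h2 : (0 : ℝ) < Fintype.card ρ := by exact_mod_cast h0
      apply div_nonneg <;> linarith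
    have h3 : ‖t‖ ≤ (Fintype.card κ : ℝ) * B := by
      calc ‖t‖ ≤ ((Fintype.card κ : ℝ) * max 1 ‖A‖) ^
            ((Fintype.card ρ : ℝ) / ((Fintype.card κ : ℝ) - Fintype.card ρ)) := ht2
        _ ≤ ((Fintype.card κ : ℝ) * max 1 ‖A‖) ^ (1 : ℝ) :=
            Real.rpow_le_rpow_of_exponent_le hbase1 hexp
        _ = (Fintype.card κ : ℝ) * max 1 ‖A‖ := Real.rpow_one _
        _ ≤ _ := hbase
    have h4 : ‖t j‖ ≤ ‖t‖ := norm_le_pi_norm t j
    rw [Int.norm_eq_abs] at h4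
    have h5 := h4.trans h3
    exact_mod_cast h5

variable {ι : Type*} [Fintype ι] {k : ℕ}

theorem GG_zero_of_mono (P : ι → ℤ) (δ : ι → Fin k → ℤ) (x : ι → ℤ) {T z : ℕ}
    (h : ∀ m : Fin k →₀ ℕ, (m.sum fun _ e => e) < T →
      GG P δ x (MvPolynomial.monomial m 1) z = 0)
    (Q : MvPolynomial (Fin k) ℤ) (hQ : Q.totalDegree < T) : GG P δ x Q z = 0 := by
  have h1 : GG P δ x Q z = ∑ m ∈ Q.support, Q.coeff m *
      GG P δ x (MvPolynomial.monomial m 1) z := by
    rw [GG]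
    simp_rw [GG, Finset.mul_sum]
    rw [Finset.sum_comm]
    apply Finset.sum_congr rfl
    intro l _
    rw [MvPolynomial.eval_eq', Finset.mul_sum, Finset.sum_mul]
    apply Finset.sum_congr rfl
    intro m _
    rw [MvPolynomial.eval_monomial, one_mul,
      Finsupp.prod_fintype _ _ (fun i => pow_zero _)]
    ring
  rw [h1]
  apply Finset.sum_eq_zero
  intro m hm
  rw [h m (lt_of_le_of_lt (MvPolynomial.le_totalDegree hm) hQ), mul_zero]

theorem abs_GG_mono_le (P : ι → ℤ) (δ : ι → Fin k → ℤ) (x : ι → ℤ) {N π Δ X T : ℕ}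
    (hN : Fintype.card ι ≤ 2 ^ N) (hP : ∀ l, |P l| ≤ 2 ^ π) (hδ : ∀ l i, |δ l i| ≤ 2 ^ Δ)
    (hx : ∀ l, |x l| ≤ 2 ^ X) (m : Fin k →₀ ℕ) (hm : (m.sum fun _ e => e) ≤ T) (z : ℕ) :
    |GG P δ x (MvPolynomial.monomial m 1) z| ≤ 2 ^ (N + π + Δ * T + X * z) := by
  rw [GG]
  refine (Finset.abs_sum_le_sum_abs _ _).trans ?_
  have h1 : ∀ l ∈ (univ : Finset ι),
      |P l * MvPolynomial.eval (δ l) (MvPolynomial.monomial m 1) * x l ^ z|
        ≤ 2 ^ (π + Δ * T + X * z) := by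
    intro l _
    rw [abs_mul, abs_mul, abs_pow, pow_add, pow_add, pow_mul 2 X z]
    apply mul_le_mul
    · apply mul_le_mul (hP l)
      · rw [MvPolynomial.eval_monomial, one_mul, Finsupp.prod, Finset.abs_prod]
        calc ∏ i ∈ m.support, |δ l i ^ m i| ≤ ∏ i ∈ m.support, (2 : ℤ) ^ (Δ * m i) := by
              apply Finset.prod_le_prod
              · intro i _; exact abs_nonneg _
              · intro i _
                rw [abs_pow, pow_mul]
                exact pow_le_pow_left₀ (abs_nonneg _) (hδ l i) _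
          _ = 2 ^ (Δ * (m.sum fun _ e => e)) := by
              rw [Finset.prod_pow_eq_pow_sum, Finsupp.sum, Finset.mul_sum]
          _ ≤ 2 ^ (Δ * T) := pow_le_pow_right₀ (by norm_num) (Nat.mul_le_mul_left _ hm)
      · exact abs_nonneg _
      · positivity
    · exact pow_le_pow_left₀ (abs_nonneg _) (hx l) _
    · positivity
    · positivity
  calc ∑ l, |P l * MvPolynomial.eval (δ l) (MvPolynomial.monomial m 1) * x l ^ z|
      ≤ ∑ _l : ι, (2 : ℤ) ^ (π + Δ * T + X * z) := Finset.sum_le_sum h1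
    _ = (Fintype.card ι : ℤ) * 2 ^ (π + Δ * T + X * z) := by
        rw [Finset.sum_const, nsmul_eq_mul, Finset.card_univ]
    _ ≤ 2 ^ N * 2 ^ (π + Δ * T + X * z) := by
        apply mul_le_mul_of_nonneg_right _ (by positivity)
        exact_mod_cast hN
    _ = _ := by rw [← pow_add]; congr 1; ring

theorem vandermonde_zero (P : ι → ℤ) (x : ι → ℤ) (hx : Function.Injective x)
    (h : ∀ z < Fintype.card ι, ∑ l, P l * x l ^ z = 0) : P = 0 := by
  classical
  set e := (Fintype.equivFin ι).symm with he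
  have h1 : (P ∘ e) = 0 := by
    apply Matrix.eq_zero_of_forall_pow_sum_mul_pow_eq_zero (f := x ∘ e)
    · exact hx.comp e.injective
    · intro i
      rw [← h i i.2]
      exact Equiv.sum_comp e (fun l => P l * x l ^ (i : ℕ))
  funext l
  have h2 := congrFun h1 (e.symm l)
  simpa using h2

variable {p : ℕ} [hp : Fact p.Prime]

/-- One step of the iteration. -/
theorem step (hp2 : p ≠ 2) {K E T Z Z' d N π Δ Xs : ℕ} (P : ι → ℤ) (δ : ι → Fin k → ℤ) (x : ι → ℤ)
    (A : ι → ℕ) (a : Fin k → ℤ) (β : ℤ) (hβ : ¬ (p : ℤ) ∣ β) (hK : 2 * E ≤ K) (hK0 : 0 < K)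
    (hx : ∀ l, (x l : ZMod (p ^ E)) = (PadicInt.toZModPow E (EE p K 1)) ^ (A l))
    (hA : ∀ l, ((p : ℤ) ^ E) ∣ β * A l - ∑ i, a i * δ l i)
    (H : ∀ Q : MvPolynomial (Fin k) ℤ, Q.totalDegree < 2 * T → ∀ z < Z, GG P δ x Q z = 0)
    (hd : 2 * d ≤ T * Z + 1) (hE : T * Z ^ 2 + d ≤ E)
    (hN : Fintype.card ι ≤ 2 ^ N) (hP : ∀ l, |P l| ≤ 2 ^ π) (hδ : ∀ l i, |δ l i| ≤ 2 ^ Δ)
    (hxs : ∀ l, |x l| ≤ 2 ^ Xs) (hdpos : 0 < d) (hdb : N + π + Δ * T + Xs * Z' ≤ d) :
    ∀ Q : MvPolynomial (Fin k) ℤ, Q.totalDegree < T → ∀ z < Z', GG P δ x Q z = 0 := by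
  intro Q hQ z hz
  apply GG_zero_of_mono P δ x (T := T) _ Q hQ
  intro m hm
  have hdeg : (MvPolynomial.monomial m (1 : ℤ)).totalDegree < T := by
    rw [MvPolynomial.totalDegree_monomial _ one_ne_zero]
    exact hm
  have h1 := extra hp2 P δ x A a β hβ hK hK0 hx hA H hd hE _ hdeg z
  have h2 := abs_GG_mono_le P δ x hN hP hδ hxs m hm.le z
  have h3 : (2 : ℤ) ^ (N + π + Δ * T + Xs * z) ≤ 2 ^ d := by
    apply pow_le_pow_right₀ (by norm_num)
    have : Xs * z ≤ Xs * Z' := Nat.mul_le_mul_left _ hz.le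
    omega
  have h4 : (2 : ℤ) ^ d < (p : ℤ) ^ d := by
    apply pow_lt_pow_left₀ _ (by norm_num) (by omega)
    have := hp.out.two_le
    have : 2 < p := by omega
    exact_mod_cast this
  by_contra hne
  have h5 := Int.le_of_dvd (abs_pos.2 hne) ((dvd_abs _ _).2 h1)
  linarith

end Pool.Agent.TH907.Bak
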